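import Mathlib
import Pool.Agent.J4H98.GK.Defs
import Pool.Agent.J4H98.GK.Jobs

/-!
# Job S_bern (Bernoulli–Carlitz numbers mod `P`) for MP_a90b0f_nt
-/

open Polynomial

namespace Pool.Agent.J4H79.GK

open Pool.Agent.J4H98.GK

variable {Fq : Type} [Field Fq] [Fintype Fq]

theorem sub_pow_q (x y : Fq[X]) (n : ℕ) :
    (x - y) ^ Fintype.card Fq ^ n = x ^ Fintype.card Fq ^ n - y ^ Fintype.card Fq ^ n := by
  induction n with
  | zero => simp
  | succ n ih =>
    rw [pow_succ, pow_mul, pow_mul, pow_mul, ih]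
    exact map_sub (FiniteField.frobeniusAlgHom Fq Fq[X]) _ _

theorem not_dvd_X {P : Fq[X]} (hP : Irreducible P) {n : ℕ} (hn : 0 < n) (hnd : n < P.natDegree) :
    ¬ P ∣ X ^ Fintype.card Fq ^ n - X := by
  intro h
  rw [← Nat.card_eq_fintype_card] at h
  exact absurd (Nat.le_of_dvd hn (hP.natDegree_dvd_of_dvd_X_pow_card_pow_sub_X h)) (not_le.2 hnd)

theorem not_dvd_carD {P : Fq[X]} (hP : Irreducible P) {i : ℕ} (hid : i < P.natDegree) :
    ¬ P ∣ carD Fq i := by
  rw [carD, hP.prime.dvd_finsetProd_iff]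
  rintro ⟨j, hj, hdvd⟩
  rw [Finset.mem_range] at hj
  have h1 : (X ^ Fintype.card Fq ^ i - X ^ Fintype.card Fq ^ j : Fq[X]) =
      (X ^ Fintype.card Fq ^ (i - j) - X) ^ Fintype.card Fq ^ j := by
    rw [sub_pow_q, ← pow_mul, ← pow_add, Nat.sub_add_cancel hj.le]
  rw [h1] at hdvd
  exact not_dvd_X hP (by omega) (by omega) (hP.prime.dvd_of_dvd_pow hdvd)

theorem carD_ne_zero (i : ℕ) : carD Fq i ≠ 0 := by
  rw [carD, Finset.prod_ne_zero_iff]
  intro j hj h
  rw [Finset.mem_range] at hj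
  have h1 := congrArg natDegree (sub_eq_zero.1 h)
  rw [natDegree_X_pow, natDegree_X_pow] at h1
  exact absurd h1 (Nat.pow_lt_pow_right Fintype.one_lt_card hj).ne'

/-- coefficients of `e(z)/z` -/
theorem coeff_expDiv (n : ℕ) : PowerSeries.coeff n (carExpDiv Fq) =
    ∑ i ∈ Finset.range (n + 2), if n + 1 = Fintype.card Fq ^ i then
      (algebraMap Fq[X] (RatFunc Fq) (carD Fq i))⁻¹ else 0 := by
  rw [carExpDiv, PowerSeries.coeff_mk, carExp, PowerSeries.coeff_mk]

theorem coeff_expDiv_pow (i : ℕ) : PowerSeries.coeff (Fintype.card Fq ^ i - 1) (carExpDiv Fq) =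
    (algebraMap Fq[X] (RatFunc Fq) (carD Fq i))⁻¹ := by
  have hq : 1 < Fintype.card Fq := Fintype.one_lt_card
  have hpos : 1 ≤ Fintype.card Fq ^ i := Nat.one_le_pow _ _ (by omega)
  rw [coeff_expDiv, Nat.sub_add_cancel hpos, Finset.sum_eq_single i]
  · simp
  · intro j _ hji
    rw [if_neg]
    intro h
    exact hji (Nat.pow_right_injective hq h).symm
  · intro h
    rw [Finset.mem_range, not_lt] at h
    have := Nat.lt_pow_self hq (n := i)
    omega

theorem coeff_expDiv_other (n : ℕ) (h : ∀ i, n + 1 ≠ Fintype.card Fq ^ i) :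
    PowerSeries.coeff n (carExpDiv Fq) = 0 := by
  rw [coeff_expDiv]
  exact Finset.sum_eq_zero fun i _ => by rw [if_neg (h i)]

theorem const_expDiv : PowerSeries.constantCoeff (carExpDiv Fq) = 1 := by
  have h := coeff_expDiv_pow (Fq := Fq) 0
  rw [pow_zero, Nat.sub_self, PowerSeries.coeff_zero_eq_constantCoeff_apply] at h
  rw [h, carD]
  simp

/-- the recursion -/
theorem rec (d k : ℕ) (hk : 1 ≤ k) (hkd : k + 1 < Fintype.card Fq ^ d) :
    ∑ m ∈ Finset.range d, (if Fintype.card Fq ^ m ≤ k + 1 then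
      PowerSeries.coeff (k + 1 - Fintype.card Fq ^ m) (carExpDiv Fq)⁻¹ *
        (algebraMap Fq[X] (RatFunc Fq) (carD Fq m))⁻¹ else 0) = 0 := by
  classical
  have hq : 1 < Fintype.card Fq := Fintype.one_lt_card
  have h0 : carExpDiv Fq * (carExpDiv Fq)⁻¹ = 1 := PowerSeries.mul_inv_cancel _ (by
    rw [const_expDiv]; exact one_ne_zero)
  have h1 := congrArg (PowerSeries.coeff k) h0
  rw [PowerSeries.coeff_mul, PowerSeries.coeff_one, if_neg (by omega : ¬ k = 0),
    Finset.Nat.sum_antidiagonal_eq_sum_range_succ_mk] at h1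
  rw [← Finset.sum_filter]
  refine Eq.trans ?_ h1
  refine Finset.sum_of_injOn (fun m => Fintype.card Fq ^ m - 1) ?_ ?_ ?_ ?_
  · intro a ha b hb hab
    have h1 : 1 ≤ Fintype.card Fq ^ a := Nat.one_le_pow _ _ (by omega)
    have h2 : 1 ≤ Fintype.card Fq ^ b := Nat.one_le_pow _ _ (by omega)
    apply Nat.pow_right_injective hq
    simp only at hab ⊢
    omega
  · intro m hm
    simp only [Finset.coe_filter, Finset.mem_range, Set.mem_setOf_eq, Finset.coe_range,
      Set.mem_Iio] at hm ⊢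
    omega
  · intro n hn hn'
    simp only [Finset.coe_filter, Finset.mem_range, Set.mem_image, Set.mem_setOf_eq,
      not_exists, not_and, and_imp] at hn hn'
    rw [coeff_expDiv_other, zero_mul]
    intro i hi
    have hid : i < d := by
      by_contra hcon
      have := Nat.pow_le_pow_right (by omega : 0 < Fintype.card Fq) (not_lt.1 hcon)
      omega
    exact hn' i hid (by omega) (by omega)
  · intro m hm
    simp only [Finset.mem_filter, Finset.mem_range] at hm
    have h1 : 1 ≤ Fintype.card Fq ^ m := Nat.one_le_pow _ _ (by omega)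
    rw [coeff_expDiv_pow, mul_comm]
    congr 3
    omega

/-- The digits: `Π(k)` is the image of a polynomial prime to `P`. -/
theorem carPi_eq {P : Fq[X]} (hP : Irreducible P) {k : ℕ} (hk : k < Fintype.card Fq ^ P.natDegree) :
    ∃ Q : Fq[X], ¬ P ∣ Q ∧ carPi Fq k = algebraMap Fq[X] (RatFunc Fq) Q := by
  refine ⟨∏ i ∈ Finset.range (k + 1), carD Fq i ^ (k / Fintype.card Fq ^ i % Fintype.card Fq), ?_, ?_⟩
  · rw [hP.prime.dvd_finsetProd_iff]
    rintro ⟨i, -, hdvd⟩
    by_cases hi : i < P.natDegree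
    · exact not_dvd_carD hP hi (hP.prime.dvd_of_dvd_pow hdvd)
    · have h1 : k / Fintype.card Fq ^ i = 0 := by
        apply Nat.div_eq_of_lt
        exact hk.trans_le (Nat.pow_le_pow_right Fintype.card_pos (not_lt.1 hi))
      rw [h1, Nat.zero_mod, pow_zero] at hdvd
      exact hP.not_isUnit (isUnit_of_dvd_one hdvd)
  · rw [carPi, map_prod]
    exact Finset.prod_congr rfl fun i _ => by rw [map_pow]

/-- `P`-integral elements of `K` with given reduction. -/
def Red (P : Fq[X]) {𝔽 : Type} [Field 𝔽] [Algebra Fq[X] 𝔽] (x : RatFunc Fq) (y : 𝔽) : Prop :=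
  ∃ a b : Fq[X], ¬ P ∣ b ∧ x * algebraMap Fq[X] (RatFunc Fq) b = algebraMap Fq[X] (RatFunc Fq) a ∧
    y * algebraMap Fq[X] 𝔽 b = algebraMap Fq[X] 𝔽 a

section red

variable {P : Fq[X]} (hP : Irreducible P) {𝔽 : Type} [Field 𝔽] [Algebra Fq[X] 𝔽]

theorem Red.zero (hP : Irreducible P) : Red P (0 : RatFunc Fq) (0 : 𝔽) :=
  ⟨0, 1, fun h => hP.not_isUnit (isUnit_of_dvd_one h), by simp, by simp⟩

theorem Red.one (hP : Irreducible P) : Red P (1 : RatFunc Fq) (1 : 𝔽) :=
  ⟨1, 1, fun h => hP.not_isUnit (isUnit_of_dvd_one h), by simp, by simp⟩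

theorem Red.add (hP : Irreducible P) {x x' : RatFunc Fq} {y y' : 𝔽} (h : Red P x y)
    (h' : Red P x' y') : Red P (x + x') (y + y') := by
  obtain ⟨a, b, hb, h1, h2⟩ := h
  obtain ⟨a', b', hb', h1', h2'⟩ := h'
  refine ⟨a * b' + a' * b, b * b', fun h => (hP.prime.dvd_or_dvd h).elim hb hb', ?_, ?_⟩
  · rw [map_mul, map_add, map_mul, map_mul, ← h1, ← h1']; ring
  · rw [map_mul, map_add, map_mul, map_mul, ← h2, ← h2']; ring

theorem Red.neg (hP : Irreducible P) {x : RatFunc Fq} {y : 𝔽} (h : Red P x y) :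
    Red P (-x) (-y) := by
  obtain ⟨a, b, hb, h1, h2⟩ := h
  refine ⟨-a, b, hb, ?_, ?_⟩
  · rw [map_neg, ← h1]; ring
  · rw [map_neg, ← h2]; ring

theorem Red.mul (hP : Irreducible P) {x x' : RatFunc Fq} {y y' : 𝔽} (h : Red P x y)
    (h' : Red P x' y') : Red P (x * x') (y * y') := by
  obtain ⟨a, b, hb, h1, h2⟩ := h
  obtain ⟨a', b', hb', h1', h2'⟩ := h'
  refine ⟨a * a', b * b', fun h => (hP.prime.dvd_or_dvd h).elim hb hb', ?_, ?_⟩
  · rw [map_mul, map_mul, ← h1, ← h1']; ring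
  · rw [map_mul, map_mul, ← h2, ← h2']; ring

theorem Red.ofPoly (hP : Irreducible P) (a : Fq[X]) :
    Red P (algebraMap Fq[X] (RatFunc Fq) a) (algebraMap Fq[X] 𝔽 a) :=
  ⟨a, 1, fun h => hP.not_isUnit (isUnit_of_dvd_one h), by simp, by simp⟩

theorem Red.invPoly (h𝔽 : ∀ a : Fq[X], algebraMap Fq[X] 𝔽 a = 0 ↔ P ∣ a)
    {a : Fq[X]} (ha : ¬ P ∣ a) :
    Red P (algebraMap Fq[X] (RatFunc Fq) a)⁻¹ (algebraMap Fq[X] 𝔽 a)⁻¹ := by
  have ha0 : a ≠ 0 := fun h => ha (h ▸ dvd_zero P)
  refine ⟨1, a, ha, ?_, ?_⟩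
  · rw [map_one, inv_mul_cancel₀]
    exact (map_ne_zero_iff _ (IsFractionRing.injective Fq[X] (RatFunc Fq))).2 ha0
  · rw [map_one, inv_mul_cancel₀]
    rwa [Ne, h𝔽]

theorem Red.sum (hP : Irreducible P) {ι : Type*} (s : Finset ι) {f : ι → RatFunc Fq} {g : ι → 𝔽}
    (h : ∀ i ∈ s, Red P (f i) (g i)) : Red P (∑ i ∈ s, f i) (∑ i ∈ s, g i) := by
  classical
  induction s using Finset.induction_on with
  | empty => simpa using Red.zero hP
  | insert a s ha ih =>
    rw [Finset.sum_insert ha, Finset.sum_insert ha]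
    exact Red.add hP (h a (Finset.mem_insert_self _ _))
      (ih fun i hi => h i (Finset.mem_insert_of_mem hi))

end red

theorem t_bern : S_bern := by
  intro Fq _ _ P hPm hP 𝔽 _ _ h𝔽 bb hbb0 hrec
  have hq : 1 < Fintype.card Fq := Fintype.one_lt_card
  have hd : 0 < P.natDegree := hP.natDegree_pos
  -- the coefficients reduce to `bb`
  have key : ∀ k, k < Fintype.card Fq ^ P.natDegree - 1 →
      Red P (PowerSeries.coeff k (carExpDiv Fq)⁻¹) (bb k) := by
    intro k
    induction k using Nat.strong_induction_on with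
    | _ k ih =>
      intro hk
      rcases Nat.eq_zero_or_pos k with rfl | hk0
      · rw [hbb0, PowerSeries.coeff_zero_eq_constantCoeff_apply, PowerSeries.constantCoeff_inv,
          const_expDiv, inv_one]
        exact Red.one hP
      · have h1 := rec (Fq := Fq) P.natDegree k hk0 (by omega)
        have h2 := hrec k hk0 (by omega)
        obtain ⟨d, hd'⟩ : ∃ d, P.natDegree = d + 1 := ⟨P.natDegree - 1, by omega⟩
        rw [hd', Finset.sum_range_succ'] at h1 h2
        rw [pow_zero, if_pos (by omega), Nat.add_sub_cancel] at h1 h2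
        have hD0 : carD Fq 0 = 1 := by simp [carD]
        rw [hD0, map_one, inv_one, mul_one] at h1
        rw [hD0, map_one, div_one] at h2
        rw [eq_neg_of_add_eq_zero_right h1, eq_neg_of_add_eq_zero_right h2]
        apply Red.neg hP
        apply Red.sum hP
        intro m hm
        rw [Finset.mem_range] at hm
        split_ifs with hle
        · rw [div_eq_mul_inv]
          have hpos : 1 < Fintype.card Fq ^ (m + 1) := Nat.one_lt_pow (by omega) hq
          exact Red.mul hP (ih _ (by omega) (by omega))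
            (Red.invPoly h𝔽 (not_dvd_carD hP (by omega)))
        · exact Red.zero hP
  intro k hk hdvd
  obtain ⟨a, b, hb, h1, h2⟩ := key k hk
  obtain ⟨a', b', hb', ha', h3⟩ := hdvd
  obtain ⟨Q, hQ, hPi⟩ := carPi_eq hP (k := k) (by omega)
  have hinj := IsFractionRing.injective Fq[X] (RatFunc Fq)
  have h4 : a * (Q * b') = a' * b := by
    apply hinj
    rw [map_mul, map_mul, map_mul, ← h1, ← h3, bc, hPi]; ring
  have h5 : P ∣ a := by
    have h6 : P ∣ a * (Q * b') := h4 ▸ (ha'.mul_right b)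
    rcases hP.prime.dvd_or_dvd h6 with h | h
    · exact h
    · exact absurd h fun h => (hP.prime.dvd_or_dvd h).elim hQ hb'
  rw [(h𝔽 a).2 h5] at h2
  rcases mul_eq_zero.1 h2 with h | h
  · exact h
  · exact absurd ((h𝔽 b).1 h) hb

end Pool.Agent.J4H79.GK
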