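import Mathlib
import Pool.Agent.J4H98.GK.Cls

/-!
# Job S_cg for MP_a90b0f_nt
-/

open TensorProduct

namespace Pool.Agent.J4H79.GK

open Pool.Agent.J4H98.GK
open scoped nonZeroDivisors

section

variable {R S K L : Type*} [CommRing R] [IsDomain R] [CommRing S] [IsDomain S] [Field K] [Field L]
  [Algebra R K] [IsFractionRing R K] [Algebra S L] [IsFractionRing S L]

theorem mem_r (f : R ≃+* S) (I : FractionalIdeal R⁰ K) (y : L) :
    y ∈ FractionalIdeal.ringEquivOfRingEquiv K L f I ↔
      ∃ x ∈ I, IsFractionRing.ringEquivOfRingEquiv (K := K) (L := L) f x = y := by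
  rw [← FractionalIdeal.mem_coe, ← FractionalIdeal.val_eq_coe,
    FractionalIdeal.ringEquivOfRingEquiv_apply_val, Submodule.mem_map]
  rfl

theorem canonicalEquiv_eq {K' : Type*} [Field K'] [Algebra R K'] [IsFractionRing R K']
    (I : FractionalIdeal R⁰ K) :
    FractionalIdeal.canonicalEquiv R⁰ K K' I =
      FractionalIdeal.ringEquivOfRingEquiv K K' (RingEquiv.refl R) I := by
  ext y
  rw [FractionalIdeal.mem_canonicalEquiv_apply, mem_r]
  rfl

end

theorem t_cg : S_cg := by
  intro O F _ _ _ _ _ g h σ hσ
  have hσ' : ∀ y : F, IsFractionRing.ringEquivOfRingEquiv (K := F) (L := F) g y = σ y := by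
    intro y
    obtain ⟨a, b, hb, rfl⟩ := IsFractionRing.div_surjective (A := O) y
    rw [map_div₀, map_div₀, IsFractionRing.ringEquivOfRingEquiv_algebraMap,
      IsFractionRing.ringEquivOfRingEquiv_algebraMap, hσ, hσ]
  refine ⟨?_, ?_, ?_, ?_⟩
  · intro I
    apply Units.ext
    exact FractionalIdeal.ringEquivOfRingEquiv_trans_apply F F F g h I
  · intro I
    apply Units.ext
    change FractionalIdeal.ringEquivOfRingEquiv F F (RingEquiv.refl O) (I : FractionalIdeal O⁰ F) = I
    rw [FractionalIdeal.ringEquivOfRingEquiv_refl]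
    rfl
  · intro y
    apply Units.ext
    change FractionalIdeal.ringEquivOfRingEquiv F F g
      (toPrincipalIdeal O F y : FractionalIdeal O⁰ F) = _
    rw [coe_toPrincipalIdeal, coe_toPrincipalIdeal,
      FractionalIdeal.ringEquivOfRingEquiv_spanSingleton, hσ']
    rfl
  · intro I
    apply (ClassGroup.equiv (FractionRing O)).injective
    rw [ClassGroup.equiv_mk]
    have h1 : ClassGroup.equiv (FractionRing O) (ClassGroup.mulEquiv g (ClassGroup.mk F I)) =
        (QuotientGroup.congr (toPrincipalIdeal O (FractionRing O)).range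
        (toPrincipalIdeal O (FractionRing O)).range
        (Units.mapEquiv (FractionalIdeal.ringEquivOfRingEquiv (FractionRing O) (FractionRing O) g))
        (FractionalIdeal.map_ringEquivOfRingEquiv_toPrincipalIdeal g))
        (ClassGroup.equiv (FractionRing O) (ClassGroup.mk F I)) := by
      rw [ClassGroup.mulEquiv]
      simp only [MulEquiv.trans_apply, MulEquiv.apply_symm_apply]
    rw [h1, ClassGroup.equiv_mk]
    refine Eq.trans (QuotientGroup.congr_mk' _ _ _ _ _) ?_
    congr 1
    apply Units.ext
    change FractionalIdeal.ringEquivOfRingEquiv (FractionRing O) (FractionRing O) g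
      (FractionalIdeal.canonicalEquiv O⁰ F (FractionRing O) (I : FractionalIdeal O⁰ F)) =
      FractionalIdeal.canonicalEquiv O⁰ F (FractionRing O)
        (FractionalIdeal.ringEquivOfRingEquiv F F g (I : FractionalIdeal O⁰ F))
    rw [canonicalEquiv_eq, canonicalEquiv_eq, ← FractionalIdeal.ringEquivOfRingEquiv_trans_apply,
      ← FractionalIdeal.ringEquivOfRingEquiv_trans_apply]
    rfl

end Pool.Agent.J4H79.GK
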