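import Mathlib
import Pool.Agent.J4H98.GK.Gs

/-!
# Jobs S_cmp and S_spn for MP_a90b0f_nt
-/

open Polynomial TensorProduct

namespace Pool.Agent.J4H79.GK

open Pool.Agent.J4H98.GK

section

variable {p : ℕ} [Fact p.Prime] {𝔽 F : Type} [Field 𝔽] [Field F]
  [Algebra (ZMod p) 𝔽] [Algebra (ZMod p) F]

/-- `u ⊗ id : 𝔽 ⊗ F → F` -/
noncomputable def cu (u : 𝔽 →ₗ[ZMod p] ZMod p) : 𝔽 ⊗[ZMod p] F →ₗ[ZMod p] F :=
  (TensorProduct.lid (ZMod p) F).toLinearMap ∘ₗ (u.rTensor F)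

@[simp] theorem cu_tmul (u : 𝔽 →ₗ[ZMod p] ZMod p) (a : 𝔽) (x : F) :
    cu u (a ⊗ₜ[ZMod p] x) = u a • x := by
  simp [cu]

theorem cu_Ca (Ca : F →ₗ[ZMod p] F) (u : 𝔽 →ₗ[ZMod p] ZMod p) (Ω : 𝔽 ⊗[ZMod p] F) :
    cu u (LinearMap.baseChange 𝔽 Ca Ω) = Ca (cu u Ω) := by
  induction Ω using TensorProduct.induction_on with
  | zero => simp
  | tmul a x => simp
  | add x y hx hy => rw [map_add, map_add, hx, hy, map_add, map_add]

theorem cu_smul (u : 𝔽 →ₗ[ZMod p] ZMod p) (a : 𝔽) (Ω : 𝔽 ⊗[ZMod p] F) :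
    cu u (a • Ω) = cu (u ∘ₗ LinearMap.mulLeft (ZMod p) a) Ω := by
  induction Ω using TensorProduct.induction_on with
  | zero => simp
  | tmul b x => simp [TensorProduct.smul_tmul']
  | add x y hx hy => rw [smul_add, map_add, hx, hy, map_add]

theorem eq_sum {ι : Type*} [Fintype ι] (b : Module.Basis ι (ZMod p) 𝔽) (Ω : 𝔽 ⊗[ZMod p] F) :
    Ω = ∑ j, b j • ((1 : 𝔽) ⊗ₜ[ZMod p] cu (b.coord j) Ω) := by
  induction Ω using TensorProduct.induction_on with
  | zero => simp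
  | tmul a x =>
    conv_lhs => rw [← b.sum_repr a, TensorProduct.sum_tmul]
    refine Finset.sum_congr rfl fun j _ => ?_
    rw [cu_tmul, TensorProduct.smul_tmul', smul_eq_mul, mul_one, Module.Basis.coord_apply,
      TensorProduct.smul_tmul]
  | add x y hx hy =>
    conv_lhs => rw [hx, hy, ← Finset.sum_add_distrib]
    refine Finset.sum_congr rfl fun j _ => ?_
    rw [map_add, TensorProduct.tmul_add, smul_add]

end

theorem t_spn : S_spn := by
  intro p _ 𝔽 F _ _ _ _ _ Ca M Ω hfix hΩ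
  have hM : ∀ u : 𝔽 →ₗ[ZMod p] ZMod p, cu u Ω ∈ M := by
    refine Submodule.span_induction (p := fun Ω _ => ∀ u : 𝔽 →ₗ[ZMod p] ZMod p, cu u Ω ∈ M)
      ?_ ?_ ?_ ?_ hΩ
    · rintro _ ⟨β, hβ, rfl⟩ u
      rw [cu_tmul]
      exact M.smul_mem _ hβ
    · intro u; rw [map_zero]; exact M.zero_mem
    · intro x y _ _ hx hy u
      rw [map_add]; exact M.add_mem (hx u) (hy u)
    · intro a x _ hx u
      rw [cu_smul]; exact hx _
  have : Module.Finite (ZMod p) 𝔽 := Module.Finite.of_finite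
  let b := Module.finBasis (ZMod p) 𝔽
  rw [eq_sum b Ω]
  refine Submodule.sum_mem _ fun j _ => Submodule.smul_mem _ _ (Submodule.subset_span ?_)
  refine ⟨_, ⟨hM _, ?_⟩, rfl⟩
  rw [← cu_Ca, hfix]

theorem t_cmp : S_cmp := by
  intro p e hp Fq 𝔽 F _ _ _ _ _ _ _ _ hcard Ca hCa ω hω hsum
  have hpp : p.Prime := hp.out
  have hCaq : ∀ (ε : Fq) (Ω : 𝔽 ⊗[ZMod p] F),
      LinearMap.baseChange 𝔽 Ca (((1 : 𝔽) ⊗ₜ[ZMod p] (algebraMap Fq F (ε ^ p))) * Ω) =
      ((1 : 𝔽) ⊗ₜ[ZMod p] (algebraMap Fq F ε)) * LinearMap.baseChange 𝔽 Ca Ω := by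
    intro ε Ω
    induction Ω using TensorProduct.induction_on with
    | zero => simp
    | tmul a x =>
      rw [Algebra.TensorProduct.tmul_mul_tmul, LinearMap.baseChange_tmul, map_pow, hCa,
        LinearMap.baseChange_tmul, Algebra.TensorProduct.tmul_mul_tmul]
    | add x y hx hy => rw [mul_add, map_add, hx, hy, map_add, mul_add]
  have key : ∀ (i : ℕ) (ε : Fq),
      (algebraMap Fq 𝔽 ε) ^ p ^ i • ((LinearMap.baseChange 𝔽 Ca) ^ i) ω =
      ((1 : 𝔽) ⊗ₜ[ZMod p] (algebraMap Fq F ε)) * ((LinearMap.baseChange 𝔽 Ca) ^ i) ω := by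
    intro i
    induction i with
    | zero =>
      intro ε
      rw [pow_zero, pow_one, pow_zero, Module.End.one_apply, ← hω ε]
      rw [Algebra.smul_def]
      rfl
    | succ i ih =>
      intro ε
      rw [pow_succ' (LinearMap.baseChange 𝔽 Ca), Module.End.mul_apply, ← hCaq, ← ih (ε ^ p),
        map_smul, map_pow, ← pow_mul, ← pow_succ']
  have hzero : ∀ φ : 𝔽 ⊗[ZMod p] F →ₗ[𝔽] 𝔽, φ ω = 0 := by
    intro φ
    set Q : 𝔽[X] := ∑ i ∈ Finset.range e, C (φ (((LinearMap.baseChange 𝔽 Ca) ^ i) ω)) * X ^ p ^ i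
      with hQ
    have hroot : ∀ ε : Fq, Q.eval (algebraMap Fq 𝔽 ε) = 0 := by
      intro ε
      rw [hQ, eval_finsetSum]
      have h1 : ∑ i ∈ Finset.range e, (algebraMap Fq 𝔽 ε) ^ p ^ i •
          ((LinearMap.baseChange 𝔽 Ca) ^ i) ω = 0 := by
        rw [Finset.sum_congr rfl fun i _ => key i ε, ← Finset.mul_sum, hsum, mul_zero]
      have h2 := congrArg φ h1
      rw [map_sum, map_zero] at h2
      rw [← h2]
      refine Finset.sum_congr rfl fun i _ => ?_
      rw [map_smul, eval_mul, eval_C, eval_pow, eval_X, smul_eq_mul, mul_comm]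
    have he : 0 < e := by
      rcases Nat.eq_zero_or_pos e with rfl | h
      · have := Fintype.one_lt_card (α := Fq)
        rw [hcard, pow_zero] at this
        omega
      · exact h
    have hdeg : Q.natDegree < p ^ e := by
      have h1 : Q.natDegree ≤ p ^ (e - 1) := by
        rw [hQ]
        refine natDegree_sum_le_of_forall_le _ _ fun i hi => ?_
        rw [Finset.mem_range] at hi
        refine (natDegree_C_mul_X_pow_le _ _).trans (Nat.pow_le_pow_right hpp.pos (by omega))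
      exact h1.trans_lt (Nat.pow_lt_pow_right hpp.one_lt (by omega))
    have hQ0 : Q = 0 := by
      refine Polynomial.eq_zero_of_natDegree_lt_card_of_eval_eq_zero Q
        (f := fun ε : Fq => algebraMap Fq 𝔽 ε) (algebraMap Fq 𝔽).injective hroot ?_
      rw [hcard]; exact hdeg
    have hc : Q.coeff 1 = φ ω := by
      rw [hQ, finsetSum_coeff, Finset.sum_eq_single 0]
      · simp
      · intro i _ hi
        rw [coeff_C_mul_X_pow, if_neg]
        exact (Nat.one_lt_pow hi hpp.one_lt).ne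
      · intro h
        rw [Finset.mem_range, not_lt] at h
        omega
    rw [← hc, hQ0, coeff_zero]
  exact (Module.forall_dual_apply_eq_zero_iff 𝔽 ω).1 hzero

end Pool.Agent.J4H79.GK
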