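import Mathlib
import Pool.Agent.J4H98.GK.Jobs
import Pool.Agent.J4H98.GK.Jobs4
import Pool.Agent.J4H92.GK.Coef
import Pool.Agent.J4H92.GK.Cyc

/-!
# Job S_der for MP_a90b0f_nt
-/

open Polynomial

namespace Pool.Agent.J4H79.GK

open Pool.Agent.J4H98.GK

theorem hasFiniteQuotients_poly (Fq : Type) [Field Fq] [Fintype Fq] :
    Ring.HasFiniteQuotients Fq[X] := by
  refine ⟨fun {I} hI => ?_⟩
  obtain ⟨f, rfl⟩ := (IsPrincipalIdealRing.principal I).principal
  have hf : f ≠ 0 := by
    rintro rfl
    exact hI (by simp)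
  have h1 : Module.Finite Fq (AdjoinRoot f) := (AdjoinRoot.powerBasis hf).finite
  exact Module.finite_of_finite Fq (M := AdjoinRoot f)

section

variable {Fq : Type} [Field Fq] [Fintype Fq] {p : ℕ} [Fact p.Prime] [CharP Fq p]
  {P : Fq[X]} {F : Type} [Field F] [Algebra Fq[X] F] (D : F →+ F)

theorem D_algebraMap (hD : ∀ x y, D (x * y) = x * D y + y * D x)
    (hX : D (algebraMap Fq[X] F X) = 1) (hC : ∀ c : Fq, D (algebraMap Fq[X] F (C c)) = 0)
    (a : Fq[X]) : D (algebraMap Fq[X] F a) = algebraMap Fq[X] F (derivative a) := by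
  have hpow : ∀ n : ℕ, D (algebraMap Fq[X] F X ^ n) = n * algebraMap Fq[X] F X ^ (n - 1) := by
    intro n
    induction n with
    | zero =>
      have h1 := hC 1
      rw [map_one, map_one] at h1
      simp [h1]
    | succ n ih =>
      rw [pow_succ, hD, hX, ih]
      rcases Nat.eq_zero_or_pos n with rfl | hn
      · simp
      · obtain ⟨k, rfl⟩ : ∃ k, n = k + 1 := ⟨n - 1, by omega⟩
        simp only [Nat.add_sub_cancel]
        push_cast; ring
  induction a using Polynomial.induction_on' with
  | add a b ha hb => rw [map_add, map_add, ha, hb, derivative_add, map_add]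
  | monomial n c =>
    rw [← C_mul_X_pow_eq_monomial, map_mul, hD, hC, mul_zero, add_zero, map_pow, hpow,
      derivative_C_mul_X_pow, map_mul, C_mul, map_mul, map_pow]
    simp only [map_natCast]
    ring

end

theorem t_der : S_der := by
  intro p hp Fq _ _ _ P hPm hP F _ _ _ _ l hl hcl hgen D hD hX hC
  classical
  obtain ⟨hint, hfd, hgal, -, hO, -⟩ := Pool.Agent.J4H92.GK.t_cyc Fq P hPm hP F l hl hcl hgen
  obtain ⟨β, hβ0, hβd, hβP, hβ⟩ := Pool.Agent.J4H92.GK.t_coef Fq P hPm hP
  have hsum := hβ F l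
  rw [hcl] at hsum
  have hq : 2 ≤ Fintype.card Fq := Fintype.one_lt_card
  have hd : 0 < P.natDegree := hP.natDegree_pos
  have hinj : Function.Injective (algebraMap Fq[X] F) := by
    rw [IsScalarTower.algebraMap_eq Fq[X] (RatFunc Fq) F]
    exact (algebraMap (RatFunc Fq) F).injective.comp (IsFractionRing.injective Fq[X] (RatFunc Fq))
  have hPF : algebraMap Fq[X] F P ≠ 0 := by
    rw [Ne, map_eq_zero_iff _ hinj]; exact hP.ne_zero
  have hcharF : CharP F p := by
    have h1 : CharP Fq[X] p := inferInstance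
    exact charP_of_injective_ringHom hinj p
  have hqF : ∀ i, 0 < i → ((Fintype.card Fq ^ i : ℕ) : F) = 0 := by
    intro i hi
    obtain ⟨e, -, he⟩ := FiniteField.card Fq p
    rw [he, Nat.cast_pow, Nat.cast_pow, CharP.cast_eq_zero, zero_pow e.pos.ne', zero_pow hi.ne']
  have hpos : ∀ i, 0 < i → 2 ≤ Fintype.card Fq ^ i := fun i hi =>
    hq.trans (Nat.le_self_pow hi.ne' _)
  -- the two elements `w`, `z'`
  set O := integralClosure Fq[X] F with hOdef
  have hA : ∀ a : Fq[X], algebraMap Fq[X] F a ∈ O := fun a => O.algebraMap_mem a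
  have hlO : l ∈ O := hint
  set w : F := -∑ i ∈ Finset.range P.natDegree,
    algebraMap Fq[X] F (β (i + 1)) * l ^ (Fintype.card Fq ^ (i + 1) - 2) with hw
  have hwO : w ∈ O := O.neg_mem (O.sum_mem fun i _ => O.mul_mem (hA _) (O.pow_mem hlO _))
  have hPw : algebraMap Fq[X] F P = l * w := by
    have h1 := hsum
    rw [Finset.sum_range_succ', hβ0, pow_zero, pow_one] at h1
    have h2 : ∑ i ∈ Finset.range P.natDegree,
        algebraMap Fq[X] F (β (i + 1)) * l ^ Fintype.card Fq ^ (i + 1) = - (l ^ 2 * w) := by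
      rw [hw, mul_neg, neg_neg, Finset.mul_sum]
      refine Finset.sum_congr rfl fun i _ => ?_
      rw [mul_left_comm, ← pow_add, Nat.add_sub_cancel' (hpos (i + 1) (by omega))]
    rw [h2] at h1
    apply mul_right_cancel₀ hl
    linear_combination -h1
  have hμw : (l / algebraMap Fq[X] F P) * w = 1 := by
    rw [div_mul_eq_mul_div, ← hPw, div_self hPF]
  have hDpow : ∀ n : ℕ, ∀ x : F, D (x ^ n) = n * x ^ (n - 1) * D x := by
    intro n x
    induction n with
    | zero =>
      have h1 := hC 1
      rw [map_one, map_one] at h1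
      simp [h1]
    | succ n ih =>
      rw [pow_succ, hD, ih]
      rcases Nat.eq_zero_or_pos n with rfl | hn
      · simp
      · obtain ⟨k, rfl⟩ : ∃ k, n = k + 1 := ⟨n - 1, by omega⟩
        simp only [Nat.add_sub_cancel]
        push_cast; ring
  set z' : F := -∑ i ∈ Finset.range (P.natDegree + 1),
    algebraMap Fq[X] F (derivative (β i)) * l ^ (Fintype.card Fq ^ i - 1) with hz'
  have hz'O : z' ∈ O := O.neg_mem (O.sum_mem fun i _ => O.mul_mem (hA _) (O.pow_mem hlO _))
  have hDl : algebraMap Fq[X] F P * D l = l * z' := by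
    have h1 := congrArg D hsum
    rw [map_zero, map_sum] at h1
    have h2 : ∀ i ∈ Finset.range (P.natDegree + 1),
        D (algebraMap Fq[X] F (β i) * l ^ Fintype.card Fq ^ i) =
        (if i = 0 then algebraMap Fq[X] F P * D l else 0) +
        l * (algebraMap Fq[X] F (derivative (β i)) * l ^ (Fintype.card Fq ^ i - 1)) := by
      intro i _
      have h3 : l ^ Fintype.card Fq ^ i = l * l ^ (Fintype.card Fq ^ i - 1) := by
        rw [← pow_succ', Nat.sub_add_cancel (Nat.one_le_pow _ _ (by omega))]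
      rw [hD, hDpow, D_algebraMap D hD hX hC]
      split_ifs with hi
      · subst hi
        rw [hβ0, pow_zero, pow_one]; simp
      · rw [hqF i (by omega), h3]; ring
    rw [Finset.sum_congr rfl h2, Finset.sum_add_distrib, ← Finset.mul_sum,
      Finset.sum_ite_eq' (Finset.range (P.natDegree + 1)) 0
        (fun _ => algebraMap Fq[X] F P * D l), if_pos (Finset.mem_range.2 (by omega))] at h1
    rw [hz']
    linear_combination -h1
  have hDl' : D l = (l / algebraMap Fq[X] F P) * z' := by
    rw [div_mul_eq_mul_div, ← hDl, mul_div_cancel_left₀ _ hPF]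
  have hμ0 : l / algebraMap Fq[X] F P ≠ 0 := div_ne_zero hl hPF
  have hadj : ∀ x ∈ Algebra.adjoin Fq[X] {l}, x ∈ O ∧
      ∃ z ∈ O, D x = (l / algebraMap Fq[X] F P) * z := by
    intro x hx
    induction hx using Algebra.adjoin_induction with
    | mem x hx =>
      rw [Set.mem_singleton_iff] at hx
      subst hx
      exact ⟨hlO, z', hz'O, hDl'⟩
    | algebraMap a =>
      refine ⟨hA a, w * algebraMap Fq[X] F (derivative a), O.mul_mem hwO (hA _), ?_⟩
      rw [D_algebraMap D hD hX hC, ← mul_assoc, hμw, one_mul]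
    | add x y _ _ hx hy =>
      obtain ⟨hxO, z₁, hz₁, h1⟩ := hx
      obtain ⟨hyO, z₂, hz₂, h2⟩ := hy
      exact ⟨O.add_mem hxO hyO, z₁ + z₂, O.add_mem hz₁ hz₂, by rw [map_add, h1, h2]; ring⟩
    | mul x y _ _ hx hy =>
      obtain ⟨hxO, z₁, hz₁, h1⟩ := hx
      obtain ⟨hyO, z₂, hz₂, h2⟩ := hy
      exact ⟨O.mul_mem hxO hyO, x * z₂ + y * z₁,
        O.add_mem (O.mul_mem hxO hz₂) (O.mul_mem hyO hz₁), by rw [hD, h1, h2]; ring⟩
  refine ⟨?_, ?_, ?_⟩
  · intro x
    obtain ⟨-, z, hz, h1⟩ := hadj x (hO x x.2)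
    exact ⟨⟨z, hz⟩, h1⟩
  · intro q _ hq0
    have hfinA := hasFiniteQuotients_poly Fq
    have hOeq : Algebra.adjoin Fq[X] {l} = O := le_antisymm (fun x hx => (hadj x hx).1)
      (fun x hx => hO x hx)
    have hMF : Module.Finite Fq[X] O := by
      rw [← hOeq]
      exact Module.Finite.iff_fg.2 hint.fg_adjoin_singleton
    have : Ring.HasFiniteQuotients O := Ring.HasFiniteQuotients.of_module_finite Fq[X] O
    exact this.finiteQuotient hq0
  · intro q hqp hq0
    by_contra hcon
    push Not at hcon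
    obtain ⟨z, hz, h1⟩ := hcon ⟨algebraMap Fq[X] F X, hA X⟩
    obtain ⟨z₁, hz₁, h2⟩ := hcon ⟨l, hlO⟩
    have h1' : (z : F) = w := by
      apply mul_left_cancel₀ hμ0
      rw [hμw, ← hX]
      exact h1.symm
    have h2' : (z₁ : F) = z' := by
      apply mul_left_cancel₀ hμ0
      rw [← hDl']
      exact h2.symm
    set L : O := ⟨l, hlO⟩ with hL
    have hPq : algebraMap Fq[X] O P ∈ q := by
      have h3 : algebraMap Fq[X] O P = L * z := by
        apply Subtype.ext
        change algebraMap Fq[X] F P = l * z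
        rw [h1', hPw]
      rw [h3]; exact q.mul_mem_left _ hz
    have hLq : L ∈ q := by
      apply hqp.mem_of_pow_mem (Fintype.card Fq ^ P.natDegree)
      have h3 : L ^ Fintype.card Fq ^ P.natDegree = -∑ i ∈ Finset.range P.natDegree,
          algebraMap Fq[X] O (β i) * L ^ Fintype.card Fq ^ i := by
        apply Subtype.ext
        have h4 := hsum
        rw [Finset.sum_range_succ, hβd, map_one, one_mul] at h4
        push_cast
        change l ^ Fintype.card Fq ^ P.natDegree = -∑ i ∈ Finset.range P.natDegree,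
          algebraMap Fq[X] F (β i) * l ^ Fintype.card Fq ^ i
        linear_combination -h4
      rw [h3]
      refine q.neg_mem (q.sum_mem fun i hi => q.mul_mem_right _ ?_)
      obtain ⟨c, hc⟩ := hβP i (Finset.mem_range.1 hi)
      rw [hc, map_mul]
      exact q.mul_mem_right _ hPq
    have hP'q : algebraMap Fq[X] O (derivative P) ∈ q := by
      have h3 : algebraMap Fq[X] O (derivative P) = -z₁ - ∑ i ∈ Finset.range P.natDegree,
          algebraMap Fq[X] O (derivative (β (i + 1))) * L ^ (Fintype.card Fq ^ (i + 1) - 1) := by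
        apply Subtype.ext
        push_cast
        rw [h2', hz', Finset.sum_range_succ', hβ0, pow_zero, Nat.sub_self, pow_zero, mul_one]
        change algebraMap Fq[X] F (derivative P) = _
        simp only [neg_neg]
        change _ = _ - ∑ i ∈ Finset.range P.natDegree,
          algebraMap Fq[X] F (derivative (β (i + 1))) * l ^ (Fintype.card Fq ^ (i + 1) - 1)
        ring
      rw [h3]
      refine q.sub_mem (q.neg_mem hz₁) (q.sum_mem fun i _ => q.mul_mem_left _ ?_)
      have := hpos (i + 1) (by omega)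
      exact Ideal.pow_mem_of_mem q hLq _ (by omega)
    have hsep : P.Separable := PerfectField.separable_of_irreducible hP
    obtain ⟨u, v, huv⟩ := hsep
    apply hqp.ne_top
    rw [Ideal.eq_top_iff_one]
    have h3 : (1 : O) = algebraMap Fq[X] O u * algebraMap Fq[X] O P +
        algebraMap Fq[X] O v * algebraMap Fq[X] O (derivative P) := by
      rw [← map_mul, ← map_mul, ← map_add, huv, map_one]
    rw [h3]
    exact q.add_mem (q.mul_mem_left _ hPq) (q.mul_mem_left _ hP'q)

end Pool.Agent.J4H79.GK
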