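import Mathlib
import Pool.Agent.J4H98.GK.Jobs

/-!
# Logarithmic derivatives and `p`-th powers of ideals: proof of `S_idl`
-/

open IsDedekindDomain

namespace Pool.Agent.J4H79.GK

theorem der_pow_gen {F : Type*} [Field F] (D : F →+ F)
    (hD : ∀ x y, D (x * y) = x * D y + y * D x) (x : F) (n : ℕ) :
    D (x ^ n) = n * (x ^ (n - 1) * D x) := by
  induction n with
  | zero =>
    have : D 1 = 0 := by simpa using hD 1 1
    simp [this]
  | succ n ih =>
    rw [pow_succ, hD, ih]
    rcases Nat.eq_zero_or_pos n with rfl | hn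
    · simp
    · obtain ⟨k, rfl⟩ : ∃ k, n = k + 1 := ⟨n - 1, by omega⟩
      simp only [Nat.add_sub_cancel]
      push_cast
      ring

section

variable {p : ℕ} [hp : Fact p.Prime] {O F : Type} [CommRing O] [IsDomain O] [IsDedekindDomain O]
    [Field F] [hc : CharP F p] [Algebra O F] [IsFractionRing O F] (D : F →+ F) (μ : F)
    (hD : ∀ x y, D (x * y) = x * D y + y * D x)

include hD

theorem log_pow (u : F) : D (u ^ p) = 0 := by
  rw [der_pow_gen D hD, CharP.cast_eq_zero, zero_mul]

omit hp [IsDomain O] [IsDedekindDomain O] hc [IsFractionRing O F] in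
theorem log_mul {x y : F} {w w' : O} (hx : D x = x * (μ * algebraMap O F w))
    (hy : D y = y * (μ * algebraMap O F w')) :
    D (x * y) = (x * y) * (μ * algebraMap O F (w + w')) := by
  rw [hD, hx, hy, map_add]; ring

include hp hc in
/-- the local statement: if `v_q(y)` is prime to `p` then `D O ⊆ μ q` -/
theorem local_step (hDO : ∀ x : O, ∃ z : O, D (algebraMap O F x) = μ * algebraMap O F z)
    (v : HeightOneSpectrum O) [Finite (O ⧸ v.asIdeal)]
    (z₁ : O) (hz₁ : z₁ ∈ v.asIdeal) (hz₂ : z₁ ∉ v.asIdeal ^ 2) (w : O)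
    (hw : D (algebraMap O F z₁) = algebraMap O F z₁ * (μ * algebraMap O F w)) (x : O) :
    ∃ z ∈ v.asIdeal, D (algebraMap O F x) = μ * algebraMap O F z := by
  have hq := v.isPrime
  -- step 1: on `q²`
  have h2 : ∀ x ∈ v.asIdeal ^ 2, ∃ z ∈ v.asIdeal, D (algebraMap O F x) = μ * algebraMap O F z := by
    intro x hx
    rw [pow_two] at hx
    refine Submodule.mul_induction_on hx ?_ ?_
    · intro a ha b hb
      obtain ⟨za, hza⟩ := hDO a
      obtain ⟨zb, hzb⟩ := hDO b
      refine ⟨a * zb + b * za, Ideal.add_mem _ (Ideal.mul_mem_right _ _ ha)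
        (Ideal.mul_mem_right _ _ hb), ?_⟩
      rw [map_mul, hD, hza, hzb]; simp only [map_add, map_mul]; ring
    · rintro a b ⟨za, ha, hza⟩ ⟨zb, hb, hzb⟩
      refine ⟨za + zb, Ideal.add_mem _ ha hb, ?_⟩
      rw [map_add, map_add, hza, hzb, map_add]; ring
  -- step 2: on `q = (z₁) + q²`
  have hsup : Ideal.span {z₁} ⊔ v.asIdeal ^ 2 = v.asIdeal := by
    have h3 : v.asIdeal ^ (1 + 1) < Ideal.span {z₁} ⊔ v.asIdeal ^ 2 := by
      refine lt_of_le_of_ne le_sup_right fun h => hz₂ ?_
      have : z₁ ∈ Ideal.span {z₁} ⊔ v.asIdeal ^ 2 :=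
        Ideal.mem_sup_left (Ideal.mem_span_singleton_self z₁)
      rwa [← h] at this
    have h4 : Ideal.span {z₁} ⊔ v.asIdeal ^ 2 ≤ v.asIdeal ^ 1 := by
      rw [pow_one]
      refine sup_le ?_ (Ideal.pow_le_self two_ne_zero)
      rw [Ideal.span_le]
      simpa using hz₁
    have := Ideal.eq_prime_pow_of_succ_lt_of_le v.ne_bot h3 h4
    rwa [pow_one] at this
  have h1 : ∀ x ∈ v.asIdeal, ∃ z ∈ v.asIdeal, D (algebraMap O F x) = μ * algebraMap O F z := by
    intro x hx
    rw [← hsup] at hx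
    obtain ⟨a, ha, b, hb, rfl⟩ := Submodule.mem_sup.1 hx
    obtain ⟨o, rfl⟩ := Ideal.mem_span_singleton'.1 ha
    obtain ⟨zb, hzb, hzb'⟩ := h2 b hb
    obtain ⟨zo, hzo⟩ := hDO o
    refine ⟨z₁ * zo + o * (z₁ * w) + zb, Ideal.add_mem _ (Ideal.add_mem _
      (Ideal.mul_mem_right _ _ hz₁) (Ideal.mul_mem_left _ _ (Ideal.mul_mem_right _ _ hz₁))) hzb, ?_⟩
    rw [map_add, map_add, map_mul, hD, hw, hzo, hzb']
    simp only [map_add, map_mul]; ring
  -- step 3: every element is a `p`-th power modulo `q`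
  have hchar : CharP O p := by
    refine (CharP.charP_iff_prime_eq_zero hp.out).2 ?_
    have h5 : algebraMap O F (p : O) = 0 := by rw [map_natCast, CharP.cast_eq_zero]
    exact (IsFractionRing.injective O F) (by rw [h5, map_zero])
  have hchar' : CharP (O ⧸ v.asIdeal) p := by
    refine (CharP.charP_iff_prime_eq_zero hp.out).2 ?_
    rw [← map_natCast (Ideal.Quotient.mk v.asIdeal), CharP.cast_eq_zero, map_zero]
  have hsurj : Function.Surjective (frobenius (O ⧸ v.asIdeal) p) :=
    Finite.surjective_of_injective (frobenius_inj (O ⧸ v.asIdeal) p)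
  obtain ⟨u, hu⟩ := hsurj (Ideal.Quotient.mk v.asIdeal x)
  obtain ⟨u, rfl⟩ := Ideal.Quotient.mk_surjective u
  rw [frobenius_def, ← map_pow, Ideal.Quotient.eq] at hu
  obtain ⟨z, hz, hz'⟩ := h1 _ hu
  refine ⟨-z, Ideal.neg_mem_iff _ |>.2 hz, ?_⟩
  have h6 : D (algebraMap O F u ^ p) = 0 := log_pow D hD _
  rw [map_sub, map_sub, map_pow, h6] at hz'
  rw [map_neg]
  linear_combination -hz'

theorem dvd_count (hDO : ∀ x : O, ∃ z : O, D (algebraMap O F x) = μ * algebraMap O F z)
    (v : HeightOneSpectrum O) [Finite (O ⧸ v.asIdeal)]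
    (hlast : ∃ x : O, ∀ z ∈ v.asIdeal, D (algebraMap O F x) ≠ μ * algebraMap O F z)
    (y : O) (hy : y ≠ 0) (w : O)
    (hw : D (algebraMap O F y) = algebraMap O F y * (μ * algebraMap O F w)) :
    p ∣ multiplicity v.asIdeal (Ideal.span {y}) := by
  set n := multiplicity v.asIdeal (Ideal.span {y}) with hn
  by_contra hpn
  obtain ⟨x, hx⟩ := hlast
  -- Bezout
  have hcop : Nat.Coprime n p := ((Nat.Prime.coprime_iff_not_dvd hp.out).2 hpn).symm
  obtain ⟨a, b, hab⟩ : ∃ a b : ℕ, a * n = 1 + b * p := by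
    obtain ⟨a, -, ha⟩ := Nat.exists_mul_mod_eq_one_of_coprime hcop hp.out.one_lt
    refine ⟨a, n * a / p, ?_⟩
    have := Nat.mod_add_div (n * a) p
    rw [ha] at this
    rw [mul_comm a n, mul_comm _ p]; exact this.symm
  obtain ⟨π, hπ⟩ := v.intValuation_exists_uniformizer
  have hπ0 : π ≠ 0 := by
    rintro rfl
    rw [map_zero] at hπ
    exact (WithZero.exp_ne_zero (a := (-1 : ℤ))) hπ.symm
  have hπF : algebraMap O F π ≠ 0 := by
    rwa [Ne, FaithfulSMul.algebraMap_eq_zero_iff]
  set X : F := algebraMap O F y ^ a * ((algebraMap O F π ^ b)⁻¹) ^ p with hX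
  have hvX : v.valuation F X = WithZero.exp (-1 : ℤ) := by
    rw [hX, map_mul, map_pow, map_pow, map_inv₀, map_pow, HeightOneSpectrum.valuation_of_algebraMap,
      HeightOneSpectrum.valuation_of_algebraMap, hπ,
      HeightOneSpectrum.intValuation_eq_exp_neg_multiplicity v hy, ← hn]
    rw [← WithZero.exp_nsmul, ← WithZero.exp_nsmul, ← WithZero.exp_neg, ← WithZero.exp_nsmul,
      ← WithZero.exp_add]
    congr 1
    simp only [nsmul_eq_mul]
    have : ((a * n : ℕ) : ℤ) = ((1 + b * p : ℕ) : ℤ) := by rw [hab]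
    push_cast at this
    linear_combination -this
  have hvX1 : v.valuation F X ≤ 1 := by
    rw [hvX]
    rw [← WithZero.exp_zero]
    exact WithZero.exp_le_exp.2 (by norm_num)
  obtain ⟨m, d, hmd⟩ := HeightOneSpectrum.exists_primeCompl_mul_eq_of_integer v X hvX1
  have hdv : v.intValuation (d : O) = 1 := (v.intValuation_eq_one_iff_mem_primeCompl (d : O)).2 d.2
  -- the element `z₁ = X d^p = m d^(p-1)`
  set z₁ : O := m * (d : O) ^ (p - 1) with hz₁def
  have hz₁F : algebraMap O F z₁ = X * (algebraMap O F d) ^ p := by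
    rw [hz₁def, map_mul, map_pow, ← hmd]
    obtain ⟨k, hk⟩ : ∃ k, p = k + 1 := ⟨p - 1, by have := hp.out.pos; omega⟩
    rw [hk, Nat.add_sub_cancel, pow_succ]; ring
  have hvz₁ : v.intValuation z₁ = WithZero.exp (-1 : ℤ) := by
    rw [← HeightOneSpectrum.valuation_of_algebraMap (K := F)]
    change v.valuation F (algebraMap O F z₁) = _
    rw [hz₁F, map_mul, map_pow,
      HeightOneSpectrum.valuation_of_algebraMap, hdv, one_pow, mul_one, hvX]
  have hz₁q : z₁ ∈ v.asIdeal := by
    have := (v.intValuation_le_pow_iff_mem z₁ 1).1 (by rw [hvz₁]; simp)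
    rwa [pow_one] at this
  have hz₁q2 : z₁ ∉ v.asIdeal ^ 2 := by
    intro h
    have := (v.intValuation_le_pow_iff_mem z₁ 2).2 h
    rw [hvz₁, WithZero.exp_le_exp] at this
    norm_num at this
  -- its logarithmic derivative
  have hlog : ∃ w' : O, D (algebraMap O F z₁) = algebraMap O F z₁ * (μ * algebraMap O F w') := by
    have h1 : ∀ u : F, D (u ^ p) = u ^ p * (μ * algebraMap O F 0) := by
      intro u; rw [log_pow D hD, map_zero]; ring
    have h2 : D (algebraMap O F y ^ a) =
        algebraMap O F y ^ a * (μ * algebraMap O F ((a : O) * w)) := by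
      rw [der_pow_gen D hD, hw]
      rcases Nat.eq_zero_or_pos a with rfl | ha
      · simp
      · obtain ⟨k, rfl⟩ : ∃ k, a = k + 1 := ⟨a - 1, by omega⟩
        simp only [Nat.add_sub_cancel, map_mul, map_natCast]
        push_cast; ring
    have h3 := log_mul D μ hD h2 (h1 ((algebraMap O F π ^ b)⁻¹))
    have h4 := log_mul D μ hD h3 (h1 (algebraMap O F d))
    rw [← hX, ← hz₁F] at h4
    exact ⟨_, h4⟩
  obtain ⟨w', hw'⟩ := hlog
  obtain ⟨z, hz, hz'⟩ := local_step (p := p) D μ hD hDO v z₁ hz₁q hz₁q2 w' hw' x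
  exact hx z hz hz'

end

open Pool.Agent.J4H98.GK in
theorem t_idl : S_idl := by
  intro p hp O F _ _ _ _ _ _ _ D μ hD hμ hDO hfin hlast y z hyz
  classical
  obtain ⟨s, t, ht, hst⟩ := IsFractionRing.div_surjective (A := O) (y : F)
  have ht0 : t ≠ 0 := nonZeroDivisors.ne_zero ht
  have htF : algebraMap O F t ≠ 0 := by rwa [Ne, FaithfulSMul.algebraMap_eq_zero_iff]
  have hs0 : s ≠ 0 := by
    rintro rfl
    rw [map_zero, zero_div] at hst
    exact y.ne_zero hst.symm
  set y' : O := s * t ^ (p - 1) with hy'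
  have hy'0 : y' ≠ 0 := mul_ne_zero hs0 (pow_ne_zero _ ht0)
  have hy'F : algebraMap O F y' = y * algebraMap O F t ^ p := by
    rw [hy', map_mul, map_pow, ← hst]
    obtain ⟨k, hk⟩ : ∃ k, p = k + 1 := ⟨p - 1, by have := hp.out.pos; omega⟩
    rw [hk, Nat.add_sub_cancel, pow_succ]; field_simp
  have hlog : D (algebraMap O F y') = algebraMap O F y' * (μ * algebraMap O F z) := by
    rw [hy'F, hD, log_pow D hD, hyz]; ring
  -- all multiplicities are divisible by `p`
  set J : Ideal O := Ideal.span {y'} with hJ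
  have hJ0 : J ≠ 0 := by
    rw [hJ, Ne, Ideal.zero_eq_bot, Ideal.span_singleton_eq_bot]; exact hy'0
  have hcount : ∀ q ∈ UniqueFactorizationMonoid.normalizedFactors J,
      p ∣ Multiset.count q (UniqueFactorizationMonoid.normalizedFactors J) := by
    intro q hq
    have hqp := UniqueFactorizationMonoid.prime_of_normalized_factor q hq
    have hqprime : q.IsPrime := Ideal.isPrime_of_prime hqp
    have hq0 : q ≠ ⊥ := hqp.ne_zero
    have : Finite (O ⧸ q) := hfin q hqprime hq0
    have h1 := dvd_count D μ hD hDO ⟨q, hqprime, hq0⟩ (hlast q hqprime hq0) y' hy'0 z hlog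
    have h2 : Multiset.count q (UniqueFactorizationMonoid.normalizedFactors J) =
        multiplicity q J := by
      have h3 := UniqueFactorizationMonoid.emultiplicity_eq_count_normalizedFactors
        hqp.irreducible hJ0
      rw [normalize_eq] at h3
      exact (multiplicity_eq_of_emultiplicity_eq_some h3).symm
    rw [h2]; exact h1
  obtain ⟨S, hS⟩ := Multiset.exists_smul_of_dvd_count _ hcount
  have hJpow : J = S.prod ^ p := by
    have h1 := UniqueFactorizationMonoid.prod_normalizedFactors_eq hJ0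
    rw [normalize_eq, hS, Multiset.prod_nsmul] at h1
    exact h1.symm
  have hS0 : S.prod ≠ 0 := by
    intro h
    rw [h, zero_pow hp.out.ne_zero] at hJpow
    exact hJ0 hJpow
  have hI0 : ((S.prod : Ideal O) : FractionalIdeal (nonZeroDivisors O) F) *
      FractionalIdeal.spanSingleton (nonZeroDivisors O) (algebraMap O F t)⁻¹ ≠ 0 := by
    refine mul_ne_zero ?_ ?_
    · rwa [Ne, FractionalIdeal.coeIdeal_eq_zero]
    · rw [Ne, FractionalIdeal.spanSingleton_eq_zero_iff]; exact inv_ne_zero htF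
  refine ⟨Units.mk0 _ hI0, ?_⟩
  apply Units.ext
  rw [Units.val_pow_eq_pow_val, Units.val_mk0, coe_toPrincipalIdeal, mul_pow,
    ← FractionalIdeal.coeIdeal_pow, ← hJpow, hJ, FractionalIdeal.coeIdeal_span_singleton,
    FractionalIdeal.spanSingleton_pow, FractionalIdeal.spanSingleton_mul_spanSingleton, hy'F]
  congr 1
  rw [mul_assoc, ← mul_pow, mul_inv_cancel₀ htF, one_pow, mul_one]

end Pool.Agent.J4H79.GK
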