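import Mathlib
import Pool.Agent.J4H98.GK.Jobs3
import Pool.Agent.J4H98.GK.Lin6
import Pool.Agent.J4H79.GK.Bern

/-!
# Jobs S_prod and S_part1 for MP_a90b0f_nt
-/

open Polynomial

namespace Pool.Agent.J4H79.GK

open Pool.Agent.J4H98.GK

theorem t_prod : S_prod := by
  intro Fq _ _ P hPi hPm
  have hP : Irreducible P := hPi.out
  have hP0 : P ≠ 0 := hP.ne_zero
  set ζ : AdjoinRoot P := AdjoinRoot.root P with hζdef
  let pb := AdjoinRoot.powerBasis hP0
  have hfin : Module.Finite Fq (AdjoinRoot P) := pb.finite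
  have hrank : Module.finrank Fq (AdjoinRoot P) = P.natDegree := by
    rw [pb.finrank, AdjoinRoot.powerBasis_dim]
  have hcard : Nat.card (AdjoinRoot P) = Fintype.card Fq ^ P.natDegree := by
    rw [Module.natCard_eq_pow_finrank (K := Fq), hrank, Nat.card_eq_fintype_card]
  have hfin' : Finite (AdjoinRoot P) := Module.finite_of_finite Fq
  have : Fintype (AdjoinRoot P) := Fintype.ofFinite _
  have hpow : ζ ^ Fintype.card Fq ^ P.natDegree = ζ := by
    rw [← hcard, Nat.card_eq_fintype_card]
    exact FiniteField.pow_card ζ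
  have hfrob : ∀ (i : ℕ) (x y : AdjoinRoot P),
      x ^ Fintype.card Fq ^ i = y ^ Fintype.card Fq ^ i → x = y := by
    intro i
    induction i with
    | zero => intro x y h; simpa using h
    | succ i ih =>
      intro x y h
      rw [pow_succ, pow_mul, pow_mul] at h
      apply ih
      exact (FiniteField.frobeniusAlgHom Fq (AdjoinRoot P)).injective h
  have hlt : ∀ i j, i < j → j < P.natDegree →
      ζ ^ Fintype.card Fq ^ i ≠ ζ ^ Fintype.card Fq ^ j := by
    intro i j hij hj h
    have h1 : ζ = ζ ^ Fintype.card Fq ^ (j - i) := by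
      apply hfrob i
      rw [h, ← pow_mul, ← pow_add, Nat.sub_add_cancel hij.le]
    refine not_dvd_X hP (n := j - i) (by omega) (by omega) ?_
    rw [← AdjoinRoot.mk_eq_zero, map_sub, map_pow, AdjoinRoot.mk_X, ← hζdef, ← h1, sub_self]
  have hinj : ∀ i < P.natDegree, ∀ j < P.natDegree,
      ζ ^ Fintype.card Fq ^ i = ζ ^ Fintype.card Fq ^ j → i = j := by
    intro i hi j hj h
    rcases lt_trichotomy i j with h1 | h1 | h1
    · exact absurd h (hlt i j h1 hj)
    · exact h1
    · exact absurd h.symm (hlt j i h1 hi)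
  refine ⟨?_, hinj, hpow, hcard⟩
  classical
  have heval : ∀ m, (P.map (algebraMap Fq (AdjoinRoot P))).eval (ζ ^ Fintype.card Fq ^ m) = 0 := by
    intro m
    induction m with
    | zero =>
      rw [pow_zero, pow_one, eval_map]
      exact AdjoinRoot.eval₂_root P
    | succ m ih =>
      rw [eval_map] at ih ⊢
      have h1 := congrArg (FiniteField.frobeniusAlgHom Fq (AdjoinRoot P)) ih
      rw [map_zero] at h1
      rw [← aeval_def, ← aeval_algHom_apply, FiniteField.coe_frobeniusAlgHom] at h1
      rw [← aeval_def, pow_succ, pow_mul]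
      exact h1
  have hmonic : (∏ m ∈ Finset.range P.natDegree,
      ((X : (AdjoinRoot P)[X]) - C (ζ ^ Fintype.card Fq ^ m))).Monic :=
    monic_prod_of_monic _ _ fun m _ => monic_X_sub_C _
  have hdeg : (∏ m ∈ Finset.range P.natDegree,
      ((X : (AdjoinRoot P)[X]) - C (ζ ^ Fintype.card Fq ^ m))).natDegree = P.natDegree := by
    rw [natDegree_prod_of_monic _ _ fun m _ => monic_X_sub_C _,
      Finset.sum_congr rfl fun m _ => natDegree_X_sub_C _]
    simp
  have hPm' : (P.map (algebraMap Fq (AdjoinRoot P))).Monic := hPm.map _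
  have hPd' : (P.map (algebraMap Fq (AdjoinRoot P))).natDegree = P.natDegree :=
    hPm.natDegree_map _
  rw [← sub_eq_zero]
  refine Polynomial.eq_zero_of_degree_lt_of_eval_finset_eq_zero
    ((Finset.range P.natDegree).image fun m => ζ ^ Fintype.card Fq ^ m) ?_ ?_
  · rw [Finset.card_image_of_injOn, Finset.card_range]
    · have h1 := degree_sub_lt_left (p := P.map (algebraMap Fq (AdjoinRoot P)))
        (q := ∏ m ∈ Finset.range P.natDegree,
          ((X : (AdjoinRoot P)[X]) - C (ζ ^ Fintype.card Fq ^ m)))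
        (by rw [degree_eq_natDegree hPm'.ne_zero, degree_eq_natDegree hmonic.ne_zero, hPd', hdeg])
        hPm'.ne_zero (by rw [hPm'.leadingCoeff, hmonic.leadingCoeff])
      rw [degree_eq_natDegree hPm'.ne_zero, hPd'] at h1
      exact h1
    · intro i hi j hj h
      exact hinj i (by simpa using hi) j (by simpa using hj) h
  · intro x hx
    rw [Finset.mem_image] at hx
    obtain ⟨m, hm, rfl⟩ := hx
    rw [eval_sub, heval, eval_prod, Finset.prod_eq_zero hm, sub_zero]
    simp

theorem carD_succ {Fq : Type} [Field Fq] [Fintype Fq] (m : ℕ) :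
    carD Fq (m + 1) = (X ^ Fintype.card Fq ^ (m + 1) - X) * carD Fq m ^ Fintype.card Fq := by
  rw [carD, Finset.prod_range_succ', carD, ← Finset.prod_pow, mul_comm, pow_zero, pow_one]
  congr 1
  refine Finset.prod_congr rfl fun j _ => ?_
  have h := sub_pow_q (Fq := Fq) (X ^ Fintype.card Fq ^ m) (X ^ Fintype.card Fq ^ j) 1
  rw [pow_one] at h
  rw [h, ← pow_mul, ← pow_mul, ← pow_succ, ← pow_succ]

theorem exists_bb {K : Type*} [Field K] (q d : ℕ) (hq : 2 ≤ q) (hd : 0 < d) (D : ℕ → K)
    (hD : D 0 = 1) :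
    ∃ bb : ℕ → K, bb 0 = 1 ∧ ∀ k, 1 ≤ k → ∑ m ∈ Finset.range d,
      (if q ^ m ≤ k + 1 then bb (k + 1 - q ^ m) / D m else 0) = 0 := by
  classical
  set E : PowerSeries K := PowerSeries.mk fun n => ∑ m ∈ Finset.range d,
    if n + 1 = q ^ m then (D m)⁻¹ else 0 with hE
  have hc : PowerSeries.constantCoeff E = 1 := by
    rw [← PowerSeries.coeff_zero_eq_constantCoeff_apply, hE, PowerSeries.coeff_mk,
      Finset.sum_eq_single 0]
    · simp [hD]
    · intro m _ hm
      rw [if_neg]
      have := Nat.one_lt_pow hm (show 1 < q by omega)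
      omega
    · intro h; exact absurd (Finset.mem_range.2 hd) h
  have hinv : E * E⁻¹ = 1 := PowerSeries.mul_inv_cancel _ (by rw [hc]; exact one_ne_zero)
  refine ⟨fun k => PowerSeries.coeff k E⁻¹, ?_, ?_⟩
  · show PowerSeries.coeff 0 E⁻¹ = 1
    rw [PowerSeries.coeff_zero_eq_constantCoeff_apply, PowerSeries.constantCoeff_inv, hc, inv_one]
  · intro k hk
    have h1 := congrArg (PowerSeries.coeff k) hinv
    rw [PowerSeries.coeff_mul, PowerSeries.coeff_one, if_neg (by omega : ¬ k = 0),
      Finset.Nat.sum_antidiagonal_eq_sum_range_succ_mk] at h1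
    refine Eq.trans ?_ h1
    have hcoef : ∀ n, PowerSeries.coeff n E = ∑ m ∈ Finset.range d,
        if n + 1 = q ^ m then (D m)⁻¹ else 0 := fun n => by rw [hE, PowerSeries.coeff_mk]
    simp only [hcoef, Finset.sum_mul]
    rw [Finset.sum_comm]
    refine Finset.sum_congr rfl fun m _ => ?_
    have hpos : 1 ≤ q ^ m := Nat.one_le_pow _ _ (by omega)
    split_ifs with hle
    · rw [Finset.sum_eq_single (q ^ m - 1)]
      · rw [if_pos (by omega), div_eq_mul_inv, mul_comm]
        congr 3
        omega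
      · intro i _ hi
        rw [if_neg (by omega), zero_mul]
      · intro h
        rw [Finset.mem_range, not_lt] at h
        omega
    · refine (Finset.sum_eq_zero fun i hi => ?_).symm
      rw [Finset.mem_range] at hi
      rw [if_neg (by omega), zero_mul]

theorem t_part1 : S_part1 := by
  intro p hp Fq _ _ _ P hPi hPm k hk0 hkN hkdvd hdiv
  have hP : Irreducible P := hPi.out
  obtain ⟨hprod, hinj, hpow, hcard⟩ := t_prod Fq P hPm
  obtain ⟨e, -, he⟩ := FiniteField.card Fq p
  have : CharP (AdjoinRoot P) p :=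
    charP_of_injective_algebraMap (algebraMap Fq (AdjoinRoot P)).injective p
  letI : Algebra Fq[X] (AdjoinRoot P) := (AdjoinRoot.mk P).toAlgebra
  have hmap : ∀ a : Fq[X], algebraMap Fq[X] (AdjoinRoot P) a = AdjoinRoot.mk P a := fun a => rfl
  have hd : 0 < P.natDegree := hP.natDegree_pos
  have hq : 2 ≤ Fintype.card Fq := Fintype.one_lt_card
  have hD0 : algebraMap Fq[X] (AdjoinRoot P) (carD Fq 0) = 1 := by simp [carD]
  obtain ⟨bb, hb0, hb⟩ := exists_bb (Fintype.card Fq) P.natDegree hq hd
    (fun m => algebraMap Fq[X] (AdjoinRoot P) (carD Fq m)) hD0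
  have hbern := t_bern Fq P hPm hP (AdjoinRoot P) (fun a => by rw [hmap, AdjoinRoot.mk_eq_zero])
    bb hb0 (fun k hk _ => hb k hk)
  refine lin_main (p := p) he e.pos.ne' (AdjoinRoot.root P) hpow hinj hd
    (fun m => algebraMap Fq[X] (AdjoinRoot P) (carD Fq m)) hD0 ?_ bb hb0 (fun k hk _ => hb k hk)
    hkdvd hk0 hkN ?_
  · intro m
    simp only [carD_succ, hmap, map_mul, map_sub, map_pow, AdjoinRoot.mk_X]
  · intro j
    have hN : 0 < Fintype.card Fq ^ P.natDegree - 1 := by omega
    have hlt : Fintype.card Fq ^ j * k % (Fintype.card Fq ^ P.natDegree - 1) <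
      Fintype.card Fq ^ P.natDegree - 1 := Nat.mod_lt _ hN
    refine hbern _ hlt (hdiv _ ?_ hlt ⟨e * j, ?_⟩)
    · rcases Nat.eq_zero_or_pos
        (Fintype.card Fq ^ j * k % (Fintype.card Fq ^ P.natDegree - 1)) with h | h
      · exfalso
        have h1 : Fintype.card Fq ^ P.natDegree - 1 ∣ Fintype.card Fq ^ j * k :=
          Nat.dvd_of_mod_eq_zero h
        have hcop : Nat.Coprime (Fintype.card Fq ^ P.natDegree - 1) (Fintype.card Fq ^ j) := by
          apply Nat.Coprime.pow_right
          have h3 : Nat.Coprime (Fintype.card Fq ^ P.natDegree - 1)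
              (Fintype.card Fq ^ P.natDegree - 1 + 1) := by simp
          rw [Nat.sub_add_cancel (by omega)] at h3
          exact Nat.Coprime.coprime_dvd_right (dvd_pow_self _ hd.ne') h3
        exact absurd (Nat.le_of_dvd hk0 (hcop.dvd_of_dvd_mul_left h1)) (by omega)
      · exact h
    · rw [pow_mul, ← he]
      exact Nat.mod_modEq _ _

end Pool.Agent.J4H79.GK
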