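import Mathlib

/-!
# Jacobson's formula for derivations of fields of characteristic `p`

For an additive map `D` with the Leibniz rule on a field `F` of characteristic `p` and `a ∈ F`:
`(D + a)^p (x y) = (D + a')^p x * y + x * (D + a'')^p y` for `a = a' + a''`, and
`(D + a)^p 1 = D^(p-1) a + a^p`.
-/

open Polynomial Finset

namespace Pool.Agent.J4H79.GK

variable {F : Type*} [Field F]

/-- the operator `z ↦ D z + a z` -/
def op (D : F →+ F) (a : F) (z : F) : F := D z + a * z

theorem op_zero (D : F →+ F) : op D 0 = D := by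
  funext z; simp [op]

theorem op_mul (D : F →+ F) (hD : ∀ x y, D (x * y) = x * D y + y * D x) (a b x y : F) :
    op D (a + b) (x * y) = op D a x * y + x * op D b y := by
  simp only [op, hD]; ring

theorem op_sum (D : F →+ F) {ι : Type*} (s : Finset ι) (a : F) (f : ι → F) :
    op D a (∑ i ∈ s, f i) = ∑ i ∈ s, op D a (f i) := by
  simp only [op, map_sum, Finset.mul_sum, Finset.sum_add_distrib]

theorem D_natCast_mul (D : F →+ F) (n : ℕ) (x : F) : D ((n : F) * x) = n * D x := by
  rw [← nsmul_eq_mul, map_nsmul, nsmul_eq_mul]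

theorem op_natCast_mul (D : F →+ F) (a : F) (n : ℕ) (x : F) :
    op D a ((n : F) * x) = n * op D a x := by
  simp only [op, D_natCast_mul]; ring

theorem op_iter_mul (D : F →+ F) (hD : ∀ x y, D (x * y) = x * D y + y * D x) (a b x y : F) (n : ℕ) :
    (op D (a + b))^[n] (x * y) =
      ∑ ij ∈ antidiagonal n, (n.choose ij.1 : F) * ((op D a)^[ij.1] x * (op D b)^[ij.2] y) := by
  induction n with
  | zero => simp
  | succ n ih =>
    rw [Function.iterate_succ_apply', ih, op_sum]
    rw [Finset.sum_antidiagonal_choose_succ_mul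
      (fun i j => (op D a)^[i] x * (op D b)^[j] y) n]
    rw [← Finset.sum_add_distrib]
    refine Finset.sum_congr rfl fun ij hij => ?_
    rw [op_natCast_mul, op_mul D hD]
    have h1 : ij.1 + ij.2 = n := by simpa using hij
    have h2 : n.choose ij.2 = n.choose ij.1 := by
      rw [← h1, Nat.choose_symm_add]
    rw [h2, Function.iterate_succ_apply', Function.iterate_succ_apply']
    ring

theorem op_iter_p (D : F →+ F) (hD : ∀ x y, D (x * y) = x * D y + y * D x) (p : ℕ)
    [Fact p.Prime] [CharP F p] (a b x y : F) :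
    (op D (a + b))^[p] (x * y) = (op D a)^[p] x * y + x * (op D b)^[p] y := by
  rw [op_iter_mul D hD, Finset.Nat.sum_antidiagonal_eq_sum_range_succ
    (fun i j => (p.choose i : F) * ((op D a)^[i] x * (op D b)^[j] y))]
  have hp : 0 < p := (Fact.out : p.Prime).pos
  have h1 : p ∈ Finset.range (p + 1) := by simp
  have h0 : (0 : ℕ) ∈ (Finset.range (p + 1)).erase p := by
    simp [hp.ne]
  rw [← Finset.add_sum_erase _ _ h1, ← Finset.add_sum_erase _ _ h0, Finset.sum_eq_zero]
  · simp
  · intro i hi
    simp only [Finset.mem_erase, Finset.mem_range] at hi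
    have : ((p.choose i : ℕ) : F) = 0 := by
      rw [CharP.cast_eq_zero_iff F p]
      exact (Fact.out : p.Prime).dvd_choose_self hi.1 (by omega)
    rw [this, zero_mul]

/-- `(D + a)^n 1` -/
def P (D : F →+ F) (a : F) (n : ℕ) : F := (op D a)^[n] 1

theorem P_add (D : F →+ F) (hD : ∀ x y, D (x * y) = x * D y + y * D x) (p : ℕ)
    [Fact p.Prime] [CharP F p] (a b : F) : P D (a + b) p = P D a p + P D b p := by
  have := op_iter_p D hD p a b 1 1
  simpa [P] using this

theorem D_one (D : F →+ F) (hD : ∀ x y, D (x * y) = x * D y + y * D x) : D 1 = 0 := by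
  have := hD 1 1
  simpa using this

theorem D_iter_one (D : F →+ F) (hD : ∀ x y, D (x * y) = x * D y + y * D x) (n : ℕ) (hn : 0 < n) :
    D^[n] 1 = 0 := by
  obtain ⟨m, rfl⟩ : ∃ m, n = m + 1 := ⟨n - 1, by omega⟩
  rw [Function.iterate_succ_apply, D_one D hD]
  exact Function.iterate_fixed (map_zero D) m

theorem P_nat (D : F →+ F) (hD : ∀ x y, D (x * y) = x * D y + y * D x) (p : ℕ)
    [Fact p.Prime] [CharP F p] (a : F) (n : ℕ) : P D (n * a) p = n * P D a p := by
  induction n with
  | zero =>
    simp only [Nat.cast_zero, zero_mul, P, op_zero]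
    exact D_iter_one D hD p (Fact.out : p.Prime).pos
  | succ n ih =>
    rw [Nat.cast_succ, add_mul, one_mul, P_add D hD, ih]; ring

/-- the coefficient of `s^m` in `(D + s a)^n 1` -/
def w (D : F →+ F) (a : F) : ℕ → ℕ → F
  | 0, 0 => 1
  | 0, _ + 1 => 0
  | n + 1, 0 => D (w D a n 0)
  | n + 1, m + 1 => D (w D a n (m + 1)) + a * w D a n m

theorem w_gt (D : F →+ F) (a : F) (n m : ℕ) (h : n < m) : w D a n m = 0 := by
  induction n generalizing m with
  | zero => obtain ⟨k, rfl⟩ : ∃ k, m = k + 1 := ⟨m - 1, by omega⟩; simp [w]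
  | succ n ih =>
    obtain ⟨k, rfl⟩ : ∃ k, m = k + 1 := ⟨m - 1, by omega⟩
    simp [w, ih (k + 1) (by omega), ih k (by omega)]

theorem w_diag (D : F →+ F) (a : F) (n : ℕ) : w D a n n = a ^ n := by
  induction n with
  | zero => simp [w]
  | succ n ih => simp [w, ih, w_gt D a n (n + 1) (by omega), pow_succ, mul_comm]

theorem w_zero (D : F →+ F) (hD : ∀ x y, D (x * y) = x * D y + y * D x) (a : F) (n : ℕ) :
    w D a (n + 1) 0 = 0 := by
  induction n with
  | zero => simp [w, D_one D hD]
  | succ n ih => rw [w, ih, map_zero]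

theorem w_one (D : F →+ F) (hD : ∀ x y, D (x * y) = x * D y + y * D x) (a : F) (n : ℕ) :
    w D a (n + 1) 1 = D^[n] a := by
  induction n with
  | zero => simp [w]
  | succ n ih =>
    rw [w, ih, w_zero D hD, mul_zero, add_zero, Function.iterate_succ_apply']

theorem P_eq_sum (D : F →+ F) (a : F) (s n : ℕ) :
    P D (s * a) n = ∑ m ∈ Finset.range (n + 1), w D a n m * (s : F) ^ m := by
  induction n with
  | zero => simp [P, w]
  | succ n ih =>
    have h1 : P D (s * a) (n + 1) = op D (s * a) (P D (s * a) n) := by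
      rw [P, Function.iterate_succ_apply']; rfl
    have h2 : ∀ m, D (w D a n m * (s : F) ^ m) = D (w D a n m) * (s : F) ^ m := by
      intro m
      rw [mul_comm, ← Nat.cast_pow, D_natCast_mul, mul_comm]
    rw [h1, ih, op, map_sum]
    simp only [h2]
    rw [Finset.sum_range_succ' (fun m => w D a (n + 1) m * (s : F) ^ m)]
    simp only [w, add_mul, Finset.sum_add_distrib, pow_zero, mul_one]
    have h3 : ∑ m ∈ Finset.range (n + 1), D (w D a n m) * (s : F) ^ m =
        ∑ m ∈ Finset.range (n + 1), D (w D a n (m + 1)) * (s : F) ^ (m + 1) + D (w D a n 0) := by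
      have h4 := Finset.sum_range_succ' (fun m => D (w D a n m) * (s : F) ^ m) (n + 1)
      have h5 := Finset.sum_range_succ (fun m => D (w D a n m) * (s : F) ^ m) (n + 1)
      rw [w_gt D a n (n + 1) (by omega), map_zero, zero_mul, add_zero] at h5
      simp only [pow_zero, mul_one] at h4
      rw [← h5, h4]
    rw [h3, Finset.mul_sum]
    have h6 : ∀ m, s * a * (w D a n m * (s : F) ^ m) = a * w D a n m * (s : F) ^ (m + 1) := by
      intro m; ring
    simp only [h6]
    ring

/-- **Jacobson's formula.** -/
theorem P_p (D : F →+ F) (hD : ∀ x y, D (x * y) = x * D y + y * D x) (p : ℕ)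
    [hp : Fact p.Prime] [CharP F p] (a : F) : P D a p = D^[p - 1] a + a ^ p := by
  have hp2 : 2 ≤ p := hp.out.two_le
  -- the polynomial
  set G : F[X] := ∑ m ∈ Finset.range (p + 1), C (w D a p m) * X ^ m - C (P D a p) * X with hG
  set H : F[X] := G - C (a ^ p) * (X ^ p - X) with hH
  have hGc : ∀ m, m ≤ p → G.coeff m = w D a p m - (if m = 1 then P D a p else 0) := by
    intro m hm
    rw [hG, coeff_sub, finsetSum_coeff]
    simp only [coeff_C_mul, coeff_X_pow, coeff_X]
    rw [Finset.sum_eq_single m]
    · simp [eq_comm]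
    · intro b _ hb; simp [hb.symm]
    · intro h; exact absurd (Finset.mem_range.2 (by omega)) h
  have hGd : G.natDegree ≤ p := by
    rw [hG]
    refine (natDegree_sub_le _ _).trans (max_le ?_ ?_)
    · refine natDegree_sum_le_of_forall_le _ _ fun m hm => ?_
      refine (natDegree_C_mul_X_pow_le _ _).trans ?_
      have := Finset.mem_range.1 hm; omega
    · refine (natDegree_C_mul_le _ _).trans ?_
      rw [natDegree_X]; omega
  have hHd : H.natDegree ≤ p := by
    rw [hH]
    refine (natDegree_sub_le _ _).trans (max_le hGd ?_)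
    refine (natDegree_C_mul_le _ _).trans ?_
    refine (natDegree_sub_le _ _).trans (max_le ?_ ?_)
    · rw [natDegree_X_pow]
    · rw [natDegree_X]; omega
  have hHp : H.coeff p = 0 := by
    rw [hH, coeff_sub, hGc p le_rfl, coeff_C_mul, coeff_sub, coeff_X_pow, coeff_X, w_diag]
    have : p ≠ 1 := by omega
    have h' : (1 : ℕ) ≠ p := by omega
    simp [this, h']
  have hHdeg : H.degree < p := by
    rcases lt_or_eq_of_le hHd with h | h
    · exact (degree_le_natDegree).trans_lt (by exact_mod_cast h)
    · have h0 : H.leadingCoeff = 0 := by rw [leadingCoeff, h, hHp]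
      rw [leadingCoeff_eq_zero] at h0
      rw [h0, degree_zero]; exact WithBot.bot_lt_coe p
  have hroot : ∀ s : ℕ, H.eval (s : F) = 0 := by
    intro s
    have hs : (s : F) ^ p = s := by
      have := CharP.cast_eq_iff_mod_eq F p (a := s ^ p) (b := s)
      rw [← Nat.cast_pow]
      rw [this]
      have h3 := ZMod.pow_card (p := p) (s : ZMod p)
      rw [← Nat.cast_pow] at h3
      exact (ZMod.natCast_eq_natCast_iff' _ _ _).1 h3
    have h1 : P D (s * a) p = s * P D a p := P_nat D hD p a s
    rw [P_eq_sum D] at h1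
    rw [hH, eval_sub, hG, eval_sub, eval_finsetSum]
    simp only [eval_mul, eval_C, eval_pow, eval_X, eval_sub]
    rw [h1, hs]; ring
  have hH0 : H = 0 := by
    classical
    by_contra hne
    have hinj : Set.InjOn (fun s : ℕ => (s : F)) (Finset.range p) := by
      intro s hs t ht hst
      have := (CharP.cast_eq_iff_mod_eq F p (a := s) (b := t)).1 hst
      simp only [Finset.coe_range, Set.mem_Iio] at hs ht
      rwa [Nat.mod_eq_of_lt hs, Nat.mod_eq_of_lt ht] at this
    have h1 : ((Finset.range p).image (fun s : ℕ => (s : F))).card = p := by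
      rw [Finset.card_image_of_injOn hinj, Finset.card_range]
    have h2 : ((Finset.range p).image (fun s : ℕ => (s : F))).val ≤ H.roots := by
      rw [Multiset.le_iff_subset (Finset.nodup _)]
      intro x hx
      rw [mem_roots hne, IsRoot.def]
      rw [Finset.mem_val] at hx
      obtain ⟨s, -, rfl⟩ := Finset.mem_image.1 hx
      exact hroot s
    have h3 := (Multiset.card_le_card h2).trans (card_roots' H)
    have h4 : H.natDegree < p := (natDegree_lt_iff_degree_lt hne).2 hHdeg
    have h5 : ((Finset.range p).image (fun s : ℕ => (s : F))).val.card = p := h1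
    omega
  have h1 : H.coeff 1 = 0 := by rw [hH0, coeff_zero]
  rw [hH, coeff_sub, hGc 1 (by omega), coeff_C_mul, coeff_sub, coeff_X_pow, coeff_X] at h1
  have h2 : w D a p 1 = D^[p - 1] a := by
    have := w_one D hD a (p - 1)
    rwa [Nat.sub_add_cancel (by omega)] at this
  rw [h2] at h1
  have h' : (1 : ℕ) ≠ p := by omega
  simp only [if_true, if_neg h', zero_sub, mul_neg, mul_one, sub_neg_eq_add] at h1
  have h3 : D^[p - 1] a + a ^ p - P D a p = 0 := by rw [← h1]; ring
  exact (sub_eq_zero.1 h3).symm

/-- If `D^p = 0` and `D^(p-1) β = - β^p`, then `D y = β y` has a nonzero solution. -/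
theorem exists_log (D : F →+ F) (hD : ∀ x y, D (x * y) = x * D y + y * D x) (p : ℕ)
    [hp : Fact p.Prime] [CharP F p] (hDp : ∀ x, D^[p] x = 0) (β : F)
    (hβ : D^[p - 1] β = - β ^ p) : ∃ y, y ≠ 0 ∧ D y = β * y := by
  by_contra hcon
  push Not at hcon
  have hneg : D^[p - 1] (-β) = - D^[p - 1] β := by
    have : ∀ n, D^[n] (-β) = - D^[n] β := by
      intro n
      induction n with
      | zero => rfl
      | succ n ih => rw [Function.iterate_succ_apply', Function.iterate_succ_apply', ih, map_neg]
    exact this _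
  have hP : P D (-β) p = 0 := by
    have h1 : (-β) ^ p = - β ^ p := by
      have := map_neg (frobenius F p) β
      simpa [frobenius_def] using this
    rw [P_p D hD, hneg, hβ, h1]; ring
  have hpow : ∀ y, (op D (-β))^[p] y = 0 := by
    intro y
    have h1 := op_iter_p D hD p (-β) 0 1 y
    rw [op_zero] at h1
    simp only [add_zero, one_mul] at h1
    rw [h1, hDp, add_zero]
    change P D (-β) p * y = 0
    rw [hP, zero_mul]
  have hne : ∀ n (y : F), y ≠ 0 → (op D (-β))^[n] y ≠ 0 := by
    intro n
    induction n with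
    | zero => intro y hy; exact hy
    | succ n ih =>
      intro y hy
      rw [Function.iterate_succ_apply']
      intro h0
      have := hcon _ (ih y hy)
      apply this
      rw [op] at h0
      linear_combination h0
  exact hne p 1 one_ne_zero (hpow 1)

end Pool.Agent.J4H79.GK
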