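import Mathlib
import Pool.Agent.J4H79.GK.Pb1

/-!
# The `p`-basis `T` of a finite separable extension of `Fq(T)`
-/

open Polynomial Finset

namespace Pool.Agent.J4H79.GK

section

variable (p : ℕ) [hp : Fact p.Prime] (Fq : Type) [Field Fq] [Fintype Fq] [CharP Fq p]
    (F : Type) [Field F] [Algebra Fq[X] F] [Algebra (RatFunc Fq) F]
    [IsScalarTower Fq[X] (RatFunc Fq) F]

theorem ratFunc_pow_ne (z : RatFunc Fq) : z ^ p ≠ RatFunc.X := by
  intro h
  have hz : z ≠ 0 := by
    rintro rfl
    rw [zero_pow hp.out.ne_zero] at h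
    exact RatFunc.X_ne_zero h.symm
  have h1 : ∀ n : ℕ, (z ^ n).intDegree = n * z.intDegree := by
    intro n
    induction n with
    | zero => simp [RatFunc.intDegree_one]
    | succ n ih =>
      rw [pow_succ, RatFunc.intDegree_mul (pow_ne_zero _ hz) hz, ih]; push_cast; ring
  have h2 := h1 p
  rw [h, RatFunc.intDegree_X] at h2
  have h3 : (p : ℤ) ∣ 1 := ⟨_, h2⟩
  have h4 : p ∣ 1 := by exact_mod_cast h3
  exact hp.out.one_lt.ne' (Nat.dvd_one.1 h4)

theorem charP_ratFunc : CharP (RatFunc Fq) p :=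
  charP_of_injective_algebraMap (algebraMap Fq (RatFunc Fq)).injective p

include Fq in
theorem charP_F : CharP F p := by
  have := charP_ratFunc p Fq
  exact charP_of_injective_algebraMap (algebraMap (RatFunc Fq) F).injective p

theorem T_ne_pow [Algebra.IsSeparable (RatFunc Fq) F] (y : F) :
    y ^ p ≠ algebraMap Fq[X] F X := by
  intro h
  have := charP_ratFunc p Fq
  have : ExpChar (RatFunc Fq) p := ExpChar.prime hp.out
  have h1 : y ∈ perfectClosure (RatFunc Fq) F := by
    rw [mem_perfectClosure_iff_pow_mem p]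
    refine ⟨1, algebraMap Fq[X] (RatFunc Fq) X, ?_⟩
    rw [pow_one, h, ← IsScalarTower.algebraMap_apply]
  rw [perfectClosure.eq_bot_of_isSeparable, IntermediateField.mem_bot] at h1
  obtain ⟨z, rfl⟩ := h1
  rw [← map_pow, IsScalarTower.algebraMap_apply Fq[X] (RatFunc Fq) F] at h
  have h2 := (algebraMap (RatFunc Fq) F).injective h
  rw [RatFunc.algebraMap_X] at h2
  exact ratFunc_pow_ne p Fq z h2

end

section

variable (p : ℕ) [hp : Fact p.Prime] (F : Type) [Field F] [CharP F p] (T : F)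

/-- the field of `p`-th powers -/
abbrev kp : Subfield F := (frobenius F p).fieldRange

theorem mem_kp {x : F} : x ∈ kp p F ↔ ∃ y, y ^ p = x := by
  simp [kp, RingHom.mem_fieldRange, frobenius_def]

theorem minpoly_T (hT : ∀ y : F, y ^ p ≠ T) :
    minpoly (kp p F) T = X ^ p - C (⟨T ^ p, (mem_kp p F).2 ⟨T, rfl⟩⟩ : kp p F) := by
  symm
  refine minpoly.eq_of_irreducible_of_monic ?_ ?_ ?_
  · refine X_pow_sub_C_irreducible_of_prime hp.out fun b hb => ?_
    have h1 : (b : F) ^ p = T ^ p := by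
      have := congrArg (Subtype.val) hb
      simpa using this
    have h2 : ((b : F) - T) ^ p = 0 := by
      rw [sub_pow_char, h1, sub_self]
    have h3 : (b : F) = T := by
      rw [← sub_eq_zero]; exact pow_eq_zero_iff hp.out.ne_zero |>.1 h2
    obtain ⟨y, hy⟩ := (mem_kp p F).1 b.2
    exact hT y (hy.trans h3)
  · rw [map_sub, map_pow, aeval_X, aeval_C]
    exact sub_self _
  · exact monic_X_pow_sub_C _ hp.out.ne_zero

theorem indep (hT : ∀ y : F, y ^ p ≠ T) (c : ℕ → F)
    (h : ∑ i ∈ range p, c i ^ p * T ^ i = 0) : ∀ i < p, c i = 0 := by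
  set g : (kp p F)[X] := ∑ i ∈ range p, C (⟨c i ^ p, (mem_kp p F).2 ⟨c i, rfl⟩⟩ : kp p F) * X ^ i
    with hg
  have h1 : aeval T g = 0 := by
    rw [hg, map_sum, ← h]
    refine Finset.sum_congr rfl fun i _ => ?_
    rw [map_mul, aeval_C, map_pow, aeval_X]
    rfl
  have h2 : g = 0 := by
    by_contra hne
    have h3 := minpoly.degree_le_of_ne_zero (kp p F) T hne h1
    rw [minpoly_T p F T hT, degree_X_pow_sub_C hp.out.pos] at h3
    have h4 : g.degree < p := by
      rw [hg, ← mem_degreeLT]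
      refine Submodule.sum_mem _ fun i hi => mem_degreeLT.2 ?_
      exact (degree_C_mul_X_pow_le _ _).trans_lt (by exact_mod_cast Finset.mem_range.1 hi)
    exact absurd (h3.trans_lt h4) (lt_irrefl _)
  intro i hi
  have h5 : g.coeff i = 0 := by rw [h2, coeff_zero]
  rw [hg, finsetSum_coeff] at h5
  simp only [coeff_C_mul, coeff_X_pow] at h5
  rw [Finset.sum_eq_single i] at h5
  · simp only [if_true, mul_one] at h5
    have h6 := congrArg Subtype.val h5
    exact (pow_eq_zero_iff hp.out.ne_zero).1 h6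
  · intro b _ hb; rw [if_neg hb.symm, mul_zero]
  · intro h; exact absurd (Finset.mem_range.2 hi) h

theorem exists_coord (hT : ∀ y : F, y ^ p ≠ T)
    (htop : IntermediateField.adjoin (kp p F) {T} = ⊤) (x : F) :
    ∃ c : ℕ → F, x = ∑ i ∈ range p, c i ^ p * T ^ i := by
  have hmin := minpoly_T p F T hT
  have hint : IsIntegral (kp p F) T := by
    refine ⟨X ^ p - C (⟨T ^ p, (mem_kp p F).2 ⟨T, rfl⟩⟩ : kp p F),
      monic_X_pow_sub_C _ hp.out.ne_zero, ?_⟩
    rw [eval₂_sub, eval₂_pow, eval₂_X, eval₂_C]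
    exact sub_self _
  have h1 : x ∈ Algebra.adjoin (kp p F) {T} := by
    rw [← IntermediateField.adjoin_simple_toSubalgebra_of_isAlgebraic hint.isAlgebraic, htop]
    exact Algebra.mem_top
  rw [Algebra.adjoin_singleton_eq_range_aeval] at h1
  obtain ⟨f, hf⟩ := h1
  have hf : aeval T f = x := hf
  have h2 : aeval T (f %ₘ minpoly (kp p F) T) = x := by
    rw [← hf, Polynomial.modByMonic_eq_sub_mul_div f]
    simp
  have h3 : (f %ₘ minpoly (kp p F) T).natDegree < p := by
    have := natDegree_modByMonic_lt f (minpoly.monic hint) (minpoly.ne_one _ _)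
    rwa [hmin, natDegree_X_pow_sub_C, ← hmin] at this
  rw [aeval_eq_sum_range' h3] at h2
  have h4 : ∀ i, ∃ y : F, y ^ p = ((f %ₘ minpoly (kp p F) T).coeff i : F) := fun i =>
    (mem_kp p F).1 (Subtype.prop _)
  choose c hc using h4
  refine ⟨c, ?_⟩
  rw [← h2]
  refine Finset.sum_congr rfl fun i _ => ?_
  rw [hc, Algebra.smul_def]
  rfl

end

section

variable (p : ℕ) [hp : Fact p.Prime] (Fq : Type) [Field Fq] [Fintype Fq] [CharP Fq p]
    (F : Type) [Field F] [Algebra Fq[X] F] [Algebra (RatFunc Fq) F]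
    [IsScalarTower Fq[X] (RatFunc Fq) F] [CharP F p]

theorem adjoin_T_top [Algebra.IsSeparable (RatFunc Fq) F] :
    IntermediateField.adjoin (kp p F) {algebraMap Fq[X] F X} = ⊤ := by
  have := charP_ratFunc p Fq
  have : ExpChar (RatFunc Fq) p := ExpChar.prime hp.out
  rw [eq_top_iff]
  intro x _
  set L := IntermediateField.adjoin (kp p F) {algebraMap Fq[X] F X} with hL
  have hT : algebraMap Fq[X] F X ∈ L := IntermediateField.mem_adjoin_simple_self _ _
  have hk : ∀ y : F, y ^ p ∈ L := fun y => L.algebraMap_mem ⟨y ^ p, (mem_kp p F).2 ⟨y, rfl⟩⟩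
  have hc : ∀ c : Fq, algebraMap Fq[X] F (C c) ∈ L := by
    intro c
    obtain ⟨d, hd⟩ := (frobeniusEquiv Fq p).surjective c
    rw [frobeniusEquiv_apply, frobenius_def] at hd
    rw [← hd, C_pow, map_pow]
    exact hk _
  have hpoly : ∀ a : Fq[X], algebraMap Fq[X] F a ∈ L := by
    intro a
    induction a using Polynomial.induction_on' with
    | add f g hf hg => rw [map_add]; exact L.add_mem hf hg
    | monomial n c =>
      rw [← C_mul_X_pow_eq_monomial, map_mul, map_pow]
      exact L.mul_mem (hc c) (pow_mem hT n)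
  have hK : ∀ z : RatFunc Fq, algebraMap (RatFunc Fq) F z ∈ L := by
    intro z
    obtain ⟨a, b, _, rfl⟩ := IsFractionRing.div_surjective (A := Fq[X]) z
    rw [map_div₀, ← IsScalarTower.algebraMap_apply, ← IsScalarTower.algebraMap_apply]
    exact L.div_mem (hpoly a) (hpoly b)
  have h1 := IntermediateField.adjoin_eq_adjoin_pow_expChar_of_isSeparable' (RatFunc Fq) F
    (Set.univ : Set F) p
  rw [IntermediateField.adjoin_univ] at h1
  have h2 : x ∈ IntermediateField.adjoin (RatFunc Fq) ((fun y : F => y ^ p) '' Set.univ) := by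
    rw [← h1]; exact IntermediateField.mem_top
  have h3 : Subfield.closure (Set.range (algebraMap (RatFunc Fq) F) ∪
      ((fun y : F => y ^ p) '' Set.univ)) ≤ L.toSubfield := by
    rw [Subfield.closure_le]
    rintro y (⟨z, rfl⟩ | ⟨y, -, rfl⟩)
    · exact hK z
    · exact hk y
  exact h3 h2

end

end Pool.Agent.J4H79.GK
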