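import Mathlib
import Pool.Agent.J4H98.GK.Jobs
import Pool.Agent.J4H79.GK.Pb2

/-!
# The `p`-basis, derivation, Cartier operator and logarithmic solutions: proof of `S_pb`
-/

open Polynomial Finset

namespace Pool.Agent.J4H79.GK

section

variable (p : ℕ) [hp : Fact p.Prime] {F : Type} [Field F] [CharP F p] (T : F)

theorem coord_unique (hT : ∀ y : F, y ^ p ≠ T) (a b : ℕ → F)
    (h : ∑ i ∈ range p, a i ^ p * T ^ i = ∑ i ∈ range p, b i ^ p * T ^ i) :
    ∀ i < p, a i = b i := by
  intro i hi
  have h1 : ∑ i ∈ range p, (a i - b i) ^ p * T ^ i = 0 := by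
    rw [← sub_eq_zero, ← Finset.sum_sub_distrib] at h
    rw [← h]
    refine Finset.sum_congr rfl fun j _ => ?_
    rw [sub_pow_char]; ring
  exact sub_eq_zero.1 (indep p F T hT _ h1 i hi)

/-- The coordinates of `F` with respect to the `p`-basis `T`. -/
theorem exists_co (hT : ∀ y : F, y ^ p ≠ T)
    (htop : IntermediateField.adjoin (kp p F) {T} = ⊤) :
    ∃ co : F → ℕ → F, (∀ x, x = ∑ i ∈ range p, co x i ^ p * T ^ i) ∧
      (∀ (x : F) (c : ℕ → F), x = ∑ i ∈ range p, c i ^ p * T ^ i → ∀ i < p, co x i = c i) := by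
  choose co hco using exists_coord p F T hT htop
  exact ⟨co, hco, fun x c hx i hi => coord_unique p T hT _ _ ((hco x).symm.trans hx) i hi⟩

variable {T} (co : F → ℕ → F) (hco : ∀ x, x = ∑ i ∈ range p, co x i ^ p * T ^ i)
  (huni : ∀ (x : F) (c : ℕ → F), x = ∑ i ∈ range p, c i ^ p * T ^ i → ∀ i < p, co x i = c i)

include hco huni

theorem co_add (x y : F) (i : ℕ) (hi : i < p) : co (x + y) i = co x i + co y i := by
  refine huni (x + y) (fun i => co x i + co y i) ?_ i hi
  conv_lhs => rw [hco x, hco y, ← Finset.sum_add_distrib]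
  refine Finset.sum_congr rfl fun j _ => ?_
  rw [add_pow_char]; ring

theorem co_pow_mul (a x : F) (i : ℕ) (hi : i < p) : co (a ^ p * x) i = a * co x i := by
  refine huni (a ^ p * x) (fun i => a * co x i) ?_ i hi
  conv_lhs => rw [hco x, Finset.mul_sum]
  refine Finset.sum_congr rfl fun j _ => ?_
  rw [mul_pow]; ring

omit hco in
theorem co_T (n : ℕ) (hn : n < p) (i : ℕ) (hi : i < p) :
    co (T ^ n) i = if i = n then 1 else 0 := by
  refine huni (T ^ n) (fun i => if i = n then 1 else 0) ?_ i hi
  rw [Finset.sum_eq_single n]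
  · simp
  · intro b _ hb; simp [hb, hp.out.ne_zero]
  · intro h; exact absurd (Finset.mem_range.2 hn) h

theorem co_sum {ι : Type*} (s : Finset ι) (f : ι → F) (i : ℕ) (hi : i < p) :
    co (∑ j ∈ s, f j) i = ∑ j ∈ s, co (f j) i := by
  classical
  induction s using Finset.induction_on with
  | empty =>
    have h0 : co 0 i = 0 := huni 0 (fun _ => 0) (by simp [hp.out.ne_zero]) i hi
    simpa using h0
  | insert a s ha ih =>
    rw [Finset.sum_insert ha, Finset.sum_insert ha, co_add p co hco huni _ _ i hi, ih]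

/-- The Cartier operator. -/
noncomputable def cartier : F →+ F :=
  AddMonoidHom.mk' (fun x => co x (p - 1)) fun x y =>
    co_add p co hco huni x y (p - 1) (Nat.sub_lt hp.out.pos one_pos)

/-- The derivation `d/dT`. -/
noncomputable def der : F →+ F :=
  AddMonoidHom.mk' (fun x => ∑ i ∈ range p, (i : F) * (co x i ^ p * T ^ (i - 1))) fun x y => by
    rw [← Finset.sum_add_distrib]
    refine Finset.sum_congr rfl fun i hi => ?_
    rw [co_add p co hco huni x y i (Finset.mem_range.1 hi), add_pow_char]; ring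

theorem der_apply (x : F) : der p co hco huni x =
    ∑ i ∈ range p, (i : F) * (co x i ^ p * T ^ (i - 1)) := rfl

theorem der_pow_mul (a x : F) : der p co hco huni (a ^ p * x) = a ^ p * der p co hco huni x := by
  rw [der_apply, der_apply, Finset.mul_sum]
  refine Finset.sum_congr rfl fun i hi => ?_
  rw [co_pow_mul p co hco huni a x i (Finset.mem_range.1 hi), mul_pow]; ring

theorem der_T (n : ℕ) : der p co hco huni (T ^ n) = n * T ^ (n - 1) := by
  induction n using Nat.strong_induction_on with
  | _ n ih =>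
    rcases lt_or_ge n p with hn | hn
    · rw [der_apply, Finset.sum_eq_single n]
      · rw [co_T p co huni n hn n hn]; simp
      · intro b hb hbn
        rw [co_T p co huni n hn b (Finset.mem_range.1 hb), if_neg hbn, zero_pow hp.out.ne_zero]
        ring
      · intro h; exact absurd (Finset.mem_range.2 hn) h
    · obtain ⟨m, rfl⟩ := Nat.exists_eq_add_of_le hn
      have hp0 : ((p : ℕ) : F) = 0 := CharP.cast_eq_zero F p
      rw [pow_add, der_pow_mul, ih m (by have := hp.out.pos; omega)]
      rcases Nat.eq_zero_or_pos m with rfl | hm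
      · simp [hp0]
      · obtain ⟨k, rfl⟩ : ∃ k, m = k + 1 := ⟨m - 1, by omega⟩
        have h1 : p + (k + 1) - 1 = p + k := by omega
        rw [h1, Nat.add_sub_cancel]
        push_cast
        rw [hp0, pow_add]; ring

theorem der_mono (a : F) (n : ℕ) :
    der p co hco huni (a ^ p * T ^ n) = a ^ p * (n * T ^ (n - 1)) := by
  rw [der_pow_mul, der_T]

theorem der_mul (x y : F) : der p co hco huni (x * y) =
    x * der p co hco huni y + y * der p co hco huni x := by
  have hmono : ∀ (a b : F) (i j : ℕ), der p co hco huni (a ^ p * T ^ i * (b ^ p * T ^ j)) =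
      a ^ p * T ^ i * der p co hco huni (b ^ p * T ^ j) +
        b ^ p * T ^ j * der p co hco huni (a ^ p * T ^ i) := by
    intro a b i j
    have h1 : a ^ p * T ^ i * (b ^ p * T ^ j) = (a * b) ^ p * T ^ (i + j) := by
      rw [mul_pow, pow_add]; ring
    rw [h1, der_mono, der_mono, der_mono]
    rcases Nat.eq_zero_or_pos i with rfl | hi
    · simp [mul_pow]; ring
    rcases Nat.eq_zero_or_pos j with rfl | hj
    · simp [mul_pow]; ring
    obtain ⟨k, rfl⟩ : ∃ k, i = k + 1 := ⟨i - 1, by omega⟩
    obtain ⟨l, rfl⟩ : ∃ l, j = l + 1 := ⟨j - 1, by omega⟩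
    have h2 : k + 1 + (l + 1) - 1 = k + l + 1 := by omega
    rw [h2, Nat.add_sub_cancel, Nat.add_sub_cancel, mul_pow]
    push_cast
    ring
  have hone : ∀ (a : F) (i : ℕ) (y : F), der p co hco huni (a ^ p * T ^ i * y) =
      a ^ p * T ^ i * der p co hco huni y + y * der p co hco huni (a ^ p * T ^ i) := by
    intro a i y
    have hy := hco y
    conv_lhs => rw [hy, Finset.mul_sum, map_sum]
    simp only [hmono]
    rw [Finset.sum_add_distrib, ← Finset.mul_sum, ← map_sum, ← Finset.sum_mul, ← hy]
  have hx := hco x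
  conv_lhs => rw [hx, Finset.sum_mul, map_sum]
  simp only [hone]
  rw [Finset.sum_add_distrib, ← Finset.mul_sum, ← map_sum, ← Finset.sum_mul, ← hx]

theorem der_iter_mono (a : F) (n i : ℕ) :
    (der p co hco huni)^[n] (a ^ p * T ^ i) = a ^ p * (i.descFactorial n * T ^ (i - n)) := by
  induction n with
  | zero => simp
  | succ n ih =>
    rw [Function.iterate_succ_apply', ih]
    have h1 : a ^ p * ((i.descFactorial n : F) * T ^ (i - n)) =
        (i.descFactorial n : F) * (a ^ p * T ^ (i - n)) := by ring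
    rw [h1, D_natCast_mul, der_mono, Nat.descFactorial_succ, Nat.sub_sub]
    push_cast
    ring

theorem der_iter_sum {ι : Type*} (s : Finset ι) (f : ι → F) (n : ℕ) :
    (der p co hco huni)^[n] (∑ j ∈ s, f j) = ∑ j ∈ s, (der p co hco huni)^[n] (f j) := by
  induction n with
  | zero => rfl
  | succ n ih =>
    rw [Function.iterate_succ_apply', ih, map_sum]
    simp only [Function.iterate_succ_apply']

theorem der_iter_p (x : F) : (der p co hco huni)^[p] x = 0 := by
  rw [hco x, der_iter_sum]
  refine Finset.sum_eq_zero fun i hi => ?_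
  rw [der_iter_mono, Nat.descFactorial_of_lt (Finset.mem_range.1 hi)]
  simp

theorem der_iter_pred (x : F) : (der p co hco huni)^[p - 1] x = - co x (p - 1) ^ p := by
  have hp1 : p - 1 < p := Nat.sub_lt hp.out.pos one_pos
  conv_lhs => rw [hco x, der_iter_sum]
  rw [Finset.sum_eq_single (p - 1)]
  · rw [der_iter_mono, Nat.descFactorial_self, Nat.sub_self, pow_zero, mul_one]
    have h1 : (((p - 1).factorial : ℕ) : F) = -1 := by
      have h2 := ZMod.wilsons_lemma p
      have h3 : ZMod.castHom (dvd_refl p) F ((p - 1).factorial : ZMod p) =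
        ZMod.castHom (dvd_refl p) F (-1) := by rw [h2]
      rwa [map_natCast, map_neg, map_one] at h3
    rw [h1]; ring
  · intro b hb hbp
    have := Finset.mem_range.1 hb
    rw [der_iter_mono, Nat.descFactorial_of_lt (by omega)]
    simp
  · intro h; exact absurd (Finset.mem_range.2 hp1) h

theorem der_eq_zero (hT : ∀ y : F, y ^ p ≠ T) (x : F) (hx : der p co hco huni x = 0) :
    ∃ y, y ^ p = x := by
  have h1 : ∀ i < p - 1, co x (i + 1) = 0 := by
    -- `∑_{i<p-1} (i+1) (co x (i+1))^p T^i = 0`
    obtain ⟨r, hr⟩ : ∃ r : ℕ → F, ∀ i, i < p - 1 → r i ^ p = ((i + 1 : ℕ) : F) ∧ r i ≠ 0 := by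
      refine ⟨fun i => ((i + 1 : ℕ) : F), fun i hi => ⟨?_, ?_⟩⟩
      · have h3 := ZMod.pow_card (p := p) ((i + 1 : ℕ) : ZMod p)
        have h4 := congrArg (ZMod.castHom (dvd_refl p) F) h3
        rwa [map_pow, map_natCast] at h4
      · rw [Ne, CharP.cast_eq_zero_iff F p]
        intro h
        have := Nat.le_of_dvd (Nat.succ_pos i) h
        omega
    have h2 : ∑ i ∈ range p, ((if i < p - 1 then r i * co x (i + 1) else 0) ^ p) * T ^ i = 0 := by
      refine Eq.trans ?_ hx
      rw [der_apply]
      obtain ⟨k, hk⟩ : ∃ k, p = k + 1 := ⟨p - 1, by have := hp.out.pos; omega⟩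
      have hk1 : p - 1 = k := by omega
      have h5 : range p = range (k + 1) := by rw [hk]
      rw [h5, Finset.sum_range_succ, Finset.sum_range_succ', hk1]
      simp only [lt_self_iff_false, if_false, zero_pow hp.out.ne_zero, zero_mul, add_zero,
        Nat.cast_zero, Nat.add_sub_cancel]
      refine Finset.sum_congr rfl fun i hi => ?_
      have hi' := Finset.mem_range.1 hi
      rw [if_pos hi', mul_pow, (hr i (by omega)).1]; ring
    intro i hi
    have h6 := indep p F T hT _ h2 i (by omega)
    rw [if_pos hi] at h6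
    exact (mul_eq_zero.1 h6).resolve_left (hr i hi).2
  refine ⟨co x 0, ?_⟩
  conv_rhs => rw [hco x]
  rw [Finset.sum_eq_single 0]
  · simp
  · intro b hb hb0
    obtain ⟨i, rfl⟩ : ∃ i, b = i + 1 := ⟨b - 1, by omega⟩
    have := Finset.mem_range.1 hb
    rw [h1 i (by omega), zero_pow hp.out.ne_zero, zero_mul]
  · intro h; exact absurd (Finset.mem_range.2 hp.out.pos) h

end

open Pool.Agent.J4H98.GK in
theorem t_pb : S_pb := by
  intro p hp Fq _ _ _ F _ _ _ _ _ _
  have : CharP F p := charP_F p Fq F
  set T : F := algebraMap Fq[X] F X with hTdef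
  have hT : ∀ y : F, y ^ p ≠ T := fun y => T_ne_pow p Fq F y
  obtain ⟨co, hco, huni⟩ := exists_co p T hT (adjoin_T_top p Fq F)
  have hp0 := hp.out.pos
  have hσ : ∀ (σ : F ≃ₐ[RatFunc Fq] F) (x : F) (i : ℕ), i < p → co (σ x) i = σ (co x i) := by
    intro σ x i hi
    refine huni (σ x) (fun i => σ (co x i)) ?_ i hi
    have hσT : σ T = T := by
      rw [hTdef, IsScalarTower.algebraMap_apply Fq[X] (RatFunc Fq) F]
      exact σ.commutes _
    conv_lhs => rw [hco x, map_sum]
    refine Finset.sum_congr rfl fun j _ => ?_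
    rw [map_mul, map_pow, map_pow, hσT]
  refine ⟨der p co hco huni, cartier p co hco huni, der_mul p co hco huni, ?_, ?_, ?_, ?_, ?_, ?_,
    ?_, ?_⟩
  · have := der_T p co hco huni 1
    simpa using this
  · intro c
    obtain ⟨d, hd⟩ := (frobeniusEquiv Fq p).surjective c
    rw [frobeniusEquiv_apply, frobenius_def] at hd
    rw [← hd, C_pow, map_pow]
    have := der_mono p co hco huni (algebraMap Fq[X] F (C d)) 0
    simpa using this
  · exact der_eq_zero p co hco huni hT
  · intro x y
    exact co_pow_mul p co hco huni x y (p - 1) (by omega)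
  · intro i hi
    change co (T ^ i) (p - 1) = 0
    rw [co_T p co huni i (by omega) (p - 1) (by omega), if_neg (by omega)]
  · change co (T ^ (p - 1)) (p - 1) = 1
    rw [co_T p co huni (p - 1) (by omega) (p - 1) (by omega), if_pos rfl]
  · intro σ x
    refine ⟨hσ σ x (p - 1) (by omega), ?_⟩
    rw [der_apply, der_apply, map_sum]
    refine Finset.sum_congr rfl fun i hi => ?_
    have hσT : σ T = T := by
      rw [hTdef, IsScalarTower.algebraMap_apply Fq[X] (RatFunc Fq) F]
      exact σ.commutes _
    rw [hσ σ x i (Finset.mem_range.1 hi), map_mul, map_mul, map_pow, map_pow, hσT, map_natCast]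
  · intro β hβ
    refine exists_log (der p co hco huni) (der_mul p co hco huni) p (der_iter_p p co hco huni) β ?_
    rw [der_iter_pred]
    change - (cartier p co hco huni β) ^ p = - β ^ p
    rw [hβ]

end Pool.Agent.J4H79.GK
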