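import Mathlib
import Pool.Agent.J4H98.GK.Jobs4
import Pool.Agent.J4H92.GK.Cyc

/-!
# Job S_stab for MP_a90b0f_nt
-/

open Polynomial

namespace Pool.Agent.J4H79.GK

open Pool.Agent.J4H98.GK

theorem Ca_poly {p : ℕ} [hp : Fact p.Prime] {Fq : Type} [Field Fq] [Fintype Fq] [CharP Fq p]
    {F : Type} [Field F] [Algebra Fq[X] F] (Ca : F →+ F)
    (h1 : ∀ x y, Ca (x ^ p * y) = x * Ca y)
    (h2 : ∀ i, i + 1 < p → Ca (algebraMap Fq[X] F X ^ i) = 0)
    (h3 : Ca (algebraMap Fq[X] F X ^ (p - 1)) = 1) (a : Fq[X]) :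
    ∃ b : Fq[X], Ca (algebraMap Fq[X] F a) = algebraMap Fq[X] F b := by
  induction a using Polynomial.induction_on' with
  | add a b ha hb =>
    obtain ⟨a', ha⟩ := ha
    obtain ⟨b', hb⟩ := hb
    exact ⟨a' + b', by rw [map_add, map_add, ha, hb, map_add]⟩
  | monomial n c =>
    obtain ⟨c', hc'⟩ : ∃ c' : Fq, c' ^ p = c :=
      Finite.surjective_of_injective (frobenius_inj Fq p) c
    have hn : n = n / p * p + n % p := by
      rw [mul_comm]; exact (Nat.div_add_mod n p).symm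
    have h4 : algebraMap Fq[X] F (monomial n c) =
        (algebraMap Fq[X] F (C c' * X ^ (n / p))) ^ p * algebraMap Fq[X] F X ^ (n % p) := by
      rw [← C_mul_X_pow_eq_monomial, ← hc', ← map_pow, ← map_pow, ← map_mul]
      congr 1
      conv_lhs => rw [hn]
      rw [mul_pow, ← C_pow, ← pow_mul, pow_add, mul_assoc]
    rw [h4, h1]
    have hlt : n % p < p := Nat.mod_lt _ hp.out.pos
    rcases Nat.lt_or_ge (n % p + 1) p with h | h
    · exact ⟨0, by rw [h2 _ h, mul_zero, map_zero]⟩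
    · have h5 : n % p = p - 1 := by omega
      exact ⟨C c' * X ^ (n / p), by rw [h5, h3, mul_one]⟩

theorem t_stab : S_stab := by
  intro p hp Fq _ _ _ P hPm hP F _ _ _ _ l hl hcl hgen Ca h1 h2 h3 hσ x hx
  obtain ⟨hint, hfd, hgal, -, hO, hdual⟩ := Pool.Agent.J4H92.GK.t_cyc Fq P hPm hP F l hl hcl hgen
  refine (hdual (Ca x)).1 fun y hy => ?_
  have hinj : Function.Injective (algebraMap Fq[X] F) := by
    rw [IsScalarTower.algebraMap_eq Fq[X] (RatFunc Fq) F]
    exact (algebraMap (RatFunc Fq) F).injective.comp (IsFractionRing.injective Fq[X] (RatFunc Fq))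
  obtain ⟨a, ha⟩ := (hdual x).2 hx (y ^ p) (hy.pow p)
  obtain ⟨b, hb⟩ := Ca_poly Ca h1 h2 h3 a
  refine ⟨b, ?_⟩
  apply (algebraMap (RatFunc Fq) F).injective
  rw [← IsScalarTower.algebraMap_apply, ← hb, IsScalarTower.algebraMap_apply Fq[X] (RatFunc Fq) F,
    ← ha, trace_eq_sum_automorphisms, trace_eq_sum_automorphisms, map_sum]
  refine Finset.sum_congr rfl fun σ _ => ?_
  rw [hσ, mul_comm x, h1, mul_comm]

end Pool.Agent.J4H79.GK
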